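import Pool.Agent.LR.B2a.Efr

/-!
# LR-B2a-Char: adding sites and couplings increases `E_0 cos` in the free rooted model

`Exr J S h F = Ex (Qfr J S) (S.erase (root S)) h (fun ψ => F (emb _ ψ))` (IDefs.lean).  Tools:
Efr.lean (`Exr_eq`, `IsCoup`, `isCoup_JJ`, `Qfr_union`, `Qx`, `Qfr_ignore`; the proof of `En_union`
is the pattern), Theta.lean (`tsum_union`), B1 (`Ex_pd_add_form`: `PD F → Ex M O 0 F ≤ Ex (M+D) O 0 F`,
`Th_pos`, `summable_wt`, `pd_cos` in B1/PD.lean, `isPD`...), Forms.lean.

PLAN.  `J := JJ α β`, `hJ := isCoup_JJ hβ`.  Choose `r ∈ S` (`hne`).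
(1) `F φ := cos (pr S g φ)` satisfies the invariance hypothesis of `Exr_eq` on `S`
    (`pr S g (f) = pr S g (f') + c * ∑_{x∈S} g x = ... + 2 π k c`, `Real.cos_add_int_mul_two_pi`), and
    `F' φ := cos (pr S' g φ)` the one on `S'` (`∑_{x∈S'} g x = ∑_{x∈S} g x` because `g` is supported
    in `S`; `pr S' g φ = pr S g φ` for every `φ`).  So both sides can be rooted at `r`:
    LHS = `Ex (Qfr J S) (S.erase r) 0 (F ∘ emb)`, RHS = `Ex (Qfr J S') (S'.erase r) 0 (F ∘ emb)`.
(2) `R := S' \ S`, `c x := (J r x + J x r) / 2 > 0` for `x ∈ R`,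
    `M := Qfr J S + ∑ x ∈ R, rk (c x) (ev r - ev x)`; it is a form; on functions vanishing at `r` it
    equals `Qfr J S + massF R c`.  `PDef M (S'.erase r)`.  `D := Qfr J S' - M` is a form
    (`Qfr_union` with `S' = S ∪ R`; `∑_{x∈R} c x (f r - f x)² ≤ Qx J S R f` since `r ∈ S`:
    `Finset.single_le_sum`).  `Ex_pd_add_form`: `Ex M (S'.erase r) 0 F ≤ Ex (M + D) (S'.erase r) 0 F`
    where `F ∘ emb` is PD by `pd_cos` (look at B1/PD.lean; the pairing is the homomorphism `prH`).
(3) `S'.erase r = (S.erase r) ∪ R` (disjoint); `tsum_union` twice (with and without the factor `F`,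
    which only depends on the coordinates in `S`): numerator and denominator of
    `Ex M (S'.erase r) 0 F` are `(∑ wt F over S.erase r) * Th (massF R c) R 0` and
    `Th (Qfr J S) (S.erase r) 0 * Th (massF R c) R 0`; the common factor is positive and cancels.
    Summability: `summable_wt`, `summable_wt_mul` (`Tame` of a bounded function: `tame_bdd`),
    for the masses `pdef_massF` (prove it here as a `private` lemma).
-/

set_option autoImplicit false
set_option linter.unusedSectionVars false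

noncomputable section

open scoped BigOperators Topology
open Filter Set

namespace Pool.Agent.LR

section CharGeneric

variable {W : Type*} [DecidableEq W] {J : W → W → ℝ}

private theorem charM_lower (hJ : IsCoup J) {U : Finset W} {r x : W} (hr : r ∈ U) (hx : x ∈ U)
    (f : W → ℝ) : J x r / 2 * (f x - f r) ^ 2 ≤ Qfr J U f f := by
  rw [Qfr_self]
  have hnn : ∀ x ∈ U, ∀ y ∈ U, 0 ≤ J x y / 2 * (f x - f y) ^ 2 := fun x _ y _ => by
    have := hJ.nonneg x y
    positivity
  have a1 : J x r / 2 * (f x - f r) ^ 2 ≤ ∑ y ∈ U, J x y / 2 * (f x - f y) ^ 2 :=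
    Finset.single_le_sum (f := fun y => J x y / 2 * (f x - f y) ^ 2)
      (fun y hy => hnn x hx y hy) hr
  have a2 : ∑ y ∈ U, J x y / 2 * (f x - f y) ^ 2 ≤
      ∑ x ∈ U, ∑ y ∈ U, J x y / 2 * (f x - f y) ^ 2 :=
    Finset.single_le_sum (f := fun x => ∑ y ∈ U, J x y / 2 * (f x - f y) ^ 2)
      (fun x hx => Finset.sum_nonneg fun y hy => hnn x hx y hy) hx
  linarith

private theorem charM_pdef_massF {R : Finset W} {c : W → ℝ} (hc : ∀ x ∈ R, 0 < c x) :
    PDef (massF R c) R := by
  intro f hf h0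
  obtain ⟨x, hx⟩ := Function.ne_iff.1 h0
  have hx0 : f x ≠ 0 := hx
  have hxR : x ∈ R := by
    by_contra h
    exact hx0 (hf x h)
  rw [massF_apply]
  have h1 : c x * f x * f x ≤ ∑ x ∈ R, c x * f x * f x :=
    Finset.single_le_sum (f := fun x => c x * f x * f x)
      (fun y hy => by
        have h2 := hc y hy
        have h3 : 0 ≤ f y * f y := mul_self_nonneg _
        have h4 : c y * f y * f y = c y * (f y * f y) := by ring
        rw [h4]
        exact mul_nonneg h2.le h3) hxR
  have h2 : 0 < c x * f x * f x := by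
    have h3 : 0 < f x * f x := mul_self_pos.2 hx0
    have h4 : c x * f x * f x = c x * (f x * f x) := by ring
    rw [h4]
    exact mul_pos (hc x hxR) h3
  linarith

/-- the comparison form -/
private def charM_M (J : W → W → ℝ) (S R : Finset W) (r : W) : BF W :=
  Qfr J S + ∑ x ∈ R, rk ((J r x + J x r) / 2) (ev r - ev x)

private theorem charM_M_self (S R : Finset W) (r : W) (f : W → ℝ) :
    charM_M J S R r f f = Qfr J S f f +
      ∑ x ∈ R, (J r x + J x r) / 2 * (f r - f x) ^ 2 := by
  unfold charM_M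
  simp only [LinearMap.add_apply, LinearMap.sum_apply, rk_apply, LinearMap.sub_apply, ev_apply]
  congr 1
  refine Finset.sum_congr rfl fun x _ => by ring

private theorem charM_isForm (hJ : IsCoup J) (S R : Finset W) (r : W) :
    IsForm (charM_M J S R r) :=
  (hJ.isForm S).add (IsForm.sum _ fun x _ => isForm_rk (by
    have := hJ.nonneg r x
    have := hJ.nonneg x r
    positivity) _)

private theorem charM_pdef (hJ : IsCoup J) {S S' : Finset W} {r : W} (hr : r ∈ S) :
    PDef (charM_M J S (S' \ S) r) (S'.erase r) := by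
  intro f hf hne
  rw [charM_M_self]
  have hf0 : f r = 0 := hf r (Finset.notMem_erase _ _)
  obtain ⟨x, hx⟩ := Function.ne_iff.1 hne
  have hx0 : f x ≠ 0 := hx
  have hxS' : x ∈ S' := by
    by_contra hxU
    exact hx0 (hf x fun h => hxU (Finset.mem_of_mem_erase h))
  have hxr : x ≠ r := fun h => hx0 (h ▸ hf0)
  have hnn : ∀ y ∈ S' \ S, 0 ≤ (J r y + J y r) / 2 * (f r - f y) ^ 2 := fun y _ => by
    have := hJ.nonneg r y
    have := hJ.nonneg y r
    positivity
  have hsq : 0 < (f x - f r) ^ 2 := by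
    rw [hf0, sub_zero]
    positivity
  by_cases hxS : x ∈ S
  · have h1 := charM_lower hJ hr hxS f
    have h2 : 0 < J x r / 2 * (f x - f r) ^ 2 := by
      have := hJ.pos x r hxr
      positivity
    have h3 := Finset.sum_nonneg hnn
    linarith
  · have h1 := Finset.single_le_sum (f := fun y => (J r y + J y r) / 2 * (f r - f y) ^ 2) hnn
      (Finset.mem_sdiff.2 ⟨hxS', hxS⟩)
    have h2 : 0 < (J r x + J x r) / 2 * (f r - f x) ^ 2 := by
      have h3 := hJ.pos x r hxr
      have h4 := hJ.pos r x hxr.symm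
      have h5 : (f r - f x) ^ 2 = (f x - f r) ^ 2 := by ring
      rw [h5]
      positivity
    have h3 := (hJ.isForm S).nonneg f
    have h4 : (J r x + J x r) / 2 * (f r - f x) ^ 2 ≤
        ∑ y ∈ S' \ S, (J r y + J y r) / 2 * (f r - f y) ^ 2 := h1
    linarith

private theorem charM_diff (hJ : IsCoup J) {S S' : Finset W} {r : W} (hr : r ∈ S) (hS : S ⊆ S') :
    IsForm (Qfr J S' - charM_M J S (S' \ S) r) := by
  refine ⟨fun f g => ?_, fun f => ?_⟩
  · simp only [LinearMap.sub_apply]
    rw [(hJ.isForm S').symm f g, (charM_isForm hJ S (S' \ S) r).symm f g]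
  · simp only [LinearMap.sub_apply]
    rw [charM_M_self]
    have h0 : S ∪ (S' \ S) = S' := Finset.union_sdiff_of_subset hS
    have h1 := Qfr_union (J := J) (S := S) (T := S' \ S) Finset.disjoint_sdiff f
    rw [h0] at h1
    rw [h1]
    have h2 := (hJ.isForm (S' \ S)).nonneg f
    have h3 : ∑ y ∈ S' \ S, (J r y + J y r) / 2 * (f r - f y) ^ 2 ≤ Qx J S (S' \ S) f := by
      unfold Qx
      refine Finset.single_le_sum
        (f := fun x => ∑ y ∈ S' \ S, (J x y + J y x) / 2 * (f x - f y) ^ 2)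
        (fun x _ => Finset.sum_nonneg fun y _ => ?_) hr
      have := hJ.nonneg x y
      have := hJ.nonneg y x
      positivity
    linarith

/-- factorisation of the comparison model -/
private theorem charM_factor (hJ : IsCoup J) {S S' : Finset W} {r : W} (hr : r ∈ S) (hS : S ⊆ S')
    (G : (W → ℝ) → ℝ) (hG : ∀ f f' : W → ℝ, (∀ x ∈ S, f x = f' x) → G f = G f') (C : ℝ)
    (hb : ∀ f, |G f| ≤ C) :
    ∑' ψ : S'.erase r → ℤ, wt (charM_M J S (S' \ S) r) _ 0 ψ * G (emb _ ψ) =
      (∑' ψ : S.erase r → ℤ, wt (Qfr J S) _ 0 ψ * G (emb _ ψ)) *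
        Th (massF (S' \ S) (fun x => (J r x + J x r) / 2)) (S' \ S) 0 := by
  have hd : Disjoint S (S' \ S) := Finset.disjoint_sdiff
  have hd' : Disjoint (S.erase r) (S' \ S) :=
    Finset.disjoint_of_subset_left (Finset.erase_subset _ _) hd
  have he : S'.erase r = S.erase r ∪ (S' \ S) := by
    ext y
    simp only [Finset.mem_erase, Finset.mem_union, Finset.mem_sdiff]
    constructor
    · rintro ⟨h1, h2⟩
      by_cases h3 : y ∈ S
      · exact Or.inl ⟨h1, h3⟩
      · exact Or.inr ⟨h2, h3⟩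
    · rintro (⟨h1, h2⟩ | ⟨h1, h2⟩)
      · exact ⟨h1, hS h2⟩
      · exact ⟨fun h => h2 (h ▸ hr), h1⟩
  have hcpos : ∀ x ∈ S' \ S, 0 < (J r x + J x r) / 2 := by
    intro x hx
    have hxr : x ≠ r := fun h => (Finset.mem_sdiff.1 hx).2 (h ▸ hr)
    have h3 := hJ.pos x r hxr
    have h4 := hJ.pos r x hxr.symm
    positivity
  rw [he]
  have key := tsum_union hd'
    (fun f => Real.exp (-(1 / 2) * Qfr J S (f - 0) (f - 0)) * G f)
    (fun f => Real.exp (-(1 / 2) *
      massF (S' \ S) (fun x => (J r x + J x r) / 2) (f - 0) (f - 0)))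
    (by
      intro f g hfg
      show Real.exp (-(1 / 2) * Qfr J S (f - 0) (f - 0)) * G f =
        Real.exp (-(1 / 2) * Qfr J S (g - 0) (g - 0)) * G g
      rw [Qfr_ignore hd 0 f g hfg, hG f g fun x hx => hfg x (Finset.disjoint_left.1 hd hx)])
    (by
      intro f g hfg
      have h1 : massF (S' \ S) (fun x => (J r x + J x r) / 2) (f - 0) (f - 0) =
          massF (S' \ S) (fun x => (J r x + J x r) / 2) (g - 0) (g - 0) := by
        rw [massF_apply, massF_apply]
        refine Finset.sum_congr rfl fun x hx => ?_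
        simp only [Pi.sub_apply]
        rw [hfg x (Finset.disjoint_right.1 hd' hx)]
      show Real.exp (-(1 / 2) *
        massF (S' \ S) (fun x => (J r x + J x r) / 2) (f - 0) (f - 0)) =
        Real.exp (-(1 / 2) *
        massF (S' \ S) (fun x => (J r x + J x r) / 2) (g - 0) (g - 0))
      rw [h1])
    (summable_wt_mul (hJ.isForm S) (hJ.pdef hr) 0 (F := fun ψ => G (emb _ ψ))
      (tame_bdd C fun ψ => hb _))
    (summable_wt (isForm_massF fun x hx => (hcpos x hx).le) (charM_pdef_massF hcpos) 0)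
  unfold Th wt
  rw [← key]
  refine tsum_congr fun ψ => ?_
  have h0 : emb (S.erase r ∪ (S' \ S)) ψ r = 0 := by
    apply emb_apply_not
    simp [hr]
  have h1 : charM_M J S (S' \ S) r (emb (S.erase r ∪ (S' \ S)) ψ - 0)
      (emb (S.erase r ∪ (S' \ S)) ψ - 0) =
      Qfr J S (emb (S.erase r ∪ (S' \ S)) ψ - 0) (emb (S.erase r ∪ (S' \ S)) ψ - 0) +
      massF (S' \ S) (fun x => (J r x + J x r) / 2) (emb (S.erase r ∪ (S' \ S)) ψ - 0)
        (emb (S.erase r ∪ (S' \ S)) ψ - 0) := by
    rw [sub_zero, charM_M_self, massF_apply, h0]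
    congr 1
    refine Finset.sum_congr rfl fun x _ => by ring
  rw [h1, mul_add, Real.exp_add]
  ring

private theorem charM_main (hJ : IsCoup J) {S S' : Finset W} {r : W} (hr : r ∈ S) (hS : S ⊆ S')
    (g : W → ℝ) :
    Ex (Qfr J S) (S.erase r) 0 (fun ψ => Real.cos (pr S g (emb _ ψ))) ≤
      Ex (Qfr J S') (S'.erase r) 0 (fun ψ => Real.cos (pr S g (emb _ ψ))) := by
  have hMf := charM_isForm hJ S (S' \ S) r
  have hP : PDef (charM_M J S (S' \ S) r) (S'.erase r) := charM_pdef hJ hr
  have hDf := charM_diff hJ hr hS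
  have hF : PD (fun ψ : S'.erase r → ℤ => Real.cos (pr S g (emb _ ψ))) :=
    pd_cos_real.comp ((prL S g).toAddMonoidHom.comp (embH (S'.erase r)))
  have h1 := Ex_pd_add_form hMf hP hDf hF
  have hcan : charM_M J S (S' \ S) r + (Qfr J S' - charM_M J S (S' \ S) r) = Qfr J S' := by
    refine LinearMap.ext fun f => LinearMap.ext fun g => ?_
    simp only [LinearMap.add_apply, LinearMap.sub_apply]
    ring
  rw [hcan] at h1
  refine le_trans (le_of_eq ?_) h1
  have hcpos : ∀ x ∈ S' \ S, 0 < (J r x + J x r) / 2 := by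
    intro x hx
    have hxr : x ≠ r := fun h => (Finset.mem_sdiff.1 hx).2 (h ▸ hr)
    have h3 := hJ.pos x r hxr
    have h4 := hJ.pos r x hxr.symm
    positivity
  have hT : 0 < Th (massF (S' \ S) (fun x => (J r x + J x r) / 2)) (S' \ S) 0 :=
    Th_pos (isForm_massF fun x hx => (hcpos x hx).le) (charM_pdef_massF hcpos) 0
  have e1 := charM_factor hJ hr hS (fun f => Real.cos (pr S g f))
    (fun f f' h => by
      have h2 : pr S g f = pr S g f' := by
        unfold pr
        refine Finset.sum_congr rfl fun x hx => by rw [h x hx]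
      show Real.cos (pr S g f) = Real.cos (pr S g f')
      rw [h2]) 1 (fun f => Real.abs_cos_le_one _)
  have e2 := charM_factor hJ hr hS (fun _ => (1 : ℝ)) (fun _ _ _ => rfl) 1
    (fun f => by simp)
  simp only [mul_one] at e2
  unfold Ex
  have e3 : Th (charM_M J S (S' \ S) r) (S'.erase r) 0 = Th (Qfr J S) (S.erase r) 0 *
      Th (massF (S' \ S) (fun x => (J r x + J x r) / 2)) (S' \ S) 0 := e2
  have e4 : ∑' ψ : S'.erase r → ℤ, wt (charM_M J S (S' \ S) r) _ 0 ψ *
      Real.cos (pr S g (emb _ ψ)) =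
      (∑' ψ : S.erase r → ℤ, wt (Qfr J S) _ 0 ψ * Real.cos (pr S g (emb _ ψ))) *
        Th (massF (S' \ S) (fun x => (J r x + J x r) / 2)) (S' \ S) 0 := e1
  rw [e3, e4, mul_div_mul_right _ _ hT.ne']

end CharGeneric

/-- adding sites and couplings increases `E cos` -/
theorem char_mono {α β : ℝ} (hα : 4 < α) (hβ : 0 < β) (S S' : Finset V) (hne : S.Nonempty)
    (hS : S ⊆ S') (g : V → ℝ) (hg : Supp S g) (k : ℤ) (hk : ∑ x ∈ S, g x = 2 * Real.pi * k) :
    Exr (JJ α β) S 0 (fun φ => Real.cos (pr S g φ)) ≤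
      Exr (JJ α β) S' 0 (fun φ => Real.cos (pr S' g φ)) := by
  have hJ : IsCoup (JJ α β) := isCoup_JJ hβ
  obtain ⟨r, hr⟩ := hne
  have hpr : ∀ φ : V → ℝ, pr S' g φ = pr S g φ := by
    intro φ
    unfold pr
    symm
    refine Finset.sum_subset hS fun x _ hx => ?_
    rw [hg x hx, zero_mul]
  have hfun : (fun φ : V → ℝ => Real.cos (pr S' g φ)) = fun φ => Real.cos (pr S g φ) := by
    funext φ
    rw [hpr]
  rw [hfun]
  have hinv : ∀ (f f' : V → ℝ) (c : ℤ), (∀ x ∈ S, f x = f' x + c) →
      Real.cos (pr S g f) = Real.cos (pr S g f') := by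
    intro f f' c h
    have h1 : pr S g f = pr S g f' + ((c * k : ℤ) : ℝ) * (2 * Real.pi) := by
      unfold pr
      have h2 : ∑ x ∈ S, g x * f x = ∑ x ∈ S, g x * f' x + c * ∑ x ∈ S, g x := by
        rw [Finset.mul_sum, ← Finset.sum_add_distrib]
        refine Finset.sum_congr rfl fun x hx => ?_
        rw [h x hx]
        ring
      rw [h2, hk]
      push_cast
      ring
    rw [h1, Real.cos_add_int_mul_two_pi]
  rw [Exr_eq hr 0 (fun φ => Real.cos (pr S g φ)) hinv,
    Exr_eq (hS hr) 0 (fun φ => Real.cos (pr S g φ))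
      (fun f f' c h => hinv f f' c fun x hx => h x (hS hx))]
  exact charM_main hJ hr hS g

end Pool.Agent.LR
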