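import Pool.Agent.LR.B2a.Efr

/-!
# LR-B2a-Dir: the Dirichlet functional is at least the free functional of any finite set

`QD α β Λ = Qfr (JJ α β) Λ + massF Λ (kil α β Λ)` (Defs.lean).  Tools: Forms.lean (`QD_self`,
`QD_eq_of_subset`, `pdef_QD`, `isForm_QD`, `kil_pos`, `Qfr_self`, `massF_apply`), Theta.lean
(`tsum_union`), Efr.lean (`Th_pin`, `pdef_pin`, `Efr_eq`, `Qfr_union`, `Qx`, `Qfr_ignore`; see the
proof of `En_union` there: this module is the same pattern), B1 (`En_add_form`, `En_sub_lattice`,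
`En_nonneg`, `Th_pos`, `summable_wt`).

PLAN of `En_dir_ge`.
If `S = ∅`: `Efr_empty` and `En_nonneg` (`isForm_QD`, `pdef_QD`).  Otherwise take `r ∈ S` and
`Λ' := Λ ∪ S`.
(1) `En (QD Λ) Λ h = En (QD Λ') Λ h`: both `Th`'s (for `h` and for `0`) agree term by term because
    `emb Λ ψ - h` is supported in `Λ` (`supp_emb`, `Supp.sub`), `QD_eq_of_subset`.
(2) `En (QD Λ') Λ' h ≤ En (QD Λ') Λ h`: `En_sub_lattice` with `O' = Λ`.
(3) `t := kil α β Λ' r > 0` (`kil_pos`), `R := Λ' \ S`,
    `M := (Qfr (JJ α β) S + rk t (ev r)) + massF R (kil α β Λ')`.  `M` is a form, `PDef M Λ'`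
    (if `f ≠ 0` is supported in `Λ'`: either `f x ≠ 0` for some `x ∈ R`, then `massF > 0`; or `f`
    is supported in `S`, then `pdef_pin`), and `D := QD Λ' - M` is a form: with `Qfr_union`
    (`Λ' = S ∪ R`, `Disjoint S R`) `D f f = Qfr J R f f + Qx J S R f + ∑_{x∈S} kil x f x² - t f r²`
    and `t f r²` is one of the summands.  So `En M Λ' h ≤ En (QD Λ') Λ' h` (`En_add_form`).
(4) `Th M Λ' h = Th (Qfr S + rk t (ev r)) S h * Th (massF R kil) R h` (`tsum_union`; `Λ' = S ∪ R`),
    `Th (Qfr S + rk t (ev r)) S h = Th (Qfr S) (S.erase r) h * Th (rk t (ev r)) {r} h` (`Th_pin`).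
    Take logs exactly as at the end of `En_union`:
    `En M Λ' h = En (Qfr S) (S.erase r) h + En (rk t (ev r)) {r} h + En (massF R kil) R h`, the last
    two are `≥ 0` by `En_nonneg` (`pdef_one`; `PDef (massF R kil) R`).
(5) `Efr_eq`.
-/

set_option autoImplicit false
set_option linter.unusedSectionVars false

noncomputable section

open scoped BigOperators Topology
open Filter Set

namespace Pool.Agent.LR

/-- diagonal forms are positive definite -/
theorem pdef_massF {W : Type*} [DecidableEq W] {R : Finset W} {t : W → ℝ}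
    (ht : ∀ x ∈ R, 0 < t x) : PDef (massF R t) R := by
  intro f hf h0
  obtain ⟨x, hx⟩ := Function.ne_iff.1 h0
  have hx' : f x ≠ 0 := hx
  have hxR : x ∈ R := by
    by_contra h
    exact hx' (hf x h)
  rw [massF_apply]
  have h1 : t x * f x * f x ≤ ∑ x ∈ R, t x * f x * f x :=
    Finset.single_le_sum (f := fun x => t x * f x * f x) (fun y hy => by
      show 0 ≤ t y * f y * f y
      rw [mul_assoc]
      exact mul_nonneg (ht y hy).le (mul_self_nonneg (f y))) hxR
  have h2 : 0 < f x * f x := mul_self_pos.2 hx'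
  have h3 : 0 < t x * f x * f x := by
    rw [mul_assoc]
    exact mul_pos (ht x hxR) h2
  linarith

private theorem dir_massF_pos {R : Finset V} {k : V → ℝ} (hk : ∀ x, 0 < k x) {f : V → ℝ} {x : V}
    (hxR : x ∈ R) (hx : f x ≠ 0) : 0 < massF R k f f := by
  rw [massF_apply]
  have h1 : k x * f x * f x ≤ ∑ x ∈ R, k x * f x * f x :=
    Finset.single_le_sum (f := fun x => k x * f x * f x) (fun y _ => by
      show 0 ≤ k y * f y * f y
      rw [mul_assoc]
      exact mul_nonneg (hk y).le (mul_self_nonneg (f y))) hxR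
  have h3 : 0 < k x * f x * f x := by
    rw [mul_assoc]
    exact mul_pos (hk x) (mul_self_pos.2 hx)
  linarith

private theorem dir_Th {J : V → V → ℝ} (hJ : IsCoup J) {S R : Finset V} (hd : Disjoint S R)
    {r : V} (hr : r ∈ S) {t : ℝ} (ht : 0 < t) {k : V → ℝ} (hk : ∀ x, 0 < k x) (g : V → ℝ) :
    Th ((Qfr J S + rk t (ev r)) + massF R k) (S ∪ R) g =
      Th (Qfr J S) (S.erase r) g * Th (rk t (ev r)) {r} g * Th (massF R k) R g := by
  rw [← Th_pin hJ hr ht g]
  have key := tsum_union hd
    (fun f => Real.exp (-(1 / 2) * (Qfr J S + rk t (ev r)) (f - g) (f - g)))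
    (fun f => Real.exp (-(1 / 2) * massF R k (f - g) (f - g)))
    (by
      intro f f' hff
      show Real.exp (-(1 / 2) * (Qfr J S + rk t (ev r)) (f - g) (f - g)) =
        Real.exp (-(1 / 2) * (Qfr J S + rk t (ev r)) (f' - g) (f' - g))
      simp only [LinearMap.add_apply, rk_apply, ev_apply, Pi.sub_apply]
      rw [Qfr_ignore hd g f f' hff, hff r (Finset.disjoint_left.1 hd hr)])
    (by
      intro f f' hff
      show Real.exp (-(1 / 2) * massF R k (f - g) (f - g)) =
        Real.exp (-(1 / 2) * massF R k (f' - g) (f' - g))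
      have e : massF R k (f - g) (f - g) = massF R k (f' - g) (f' - g) := by
        rw [massF_apply, massF_apply]
        refine Finset.sum_congr rfl fun x hx => ?_
        simp only [Pi.sub_apply]
        rw [hff x (Finset.disjoint_right.1 hd hx)]
      rw [e])
    (summable_wt ((hJ.isForm S).add (isForm_rk ht.le _)) (pdef_pin hJ hr ht) g)
    (summable_wt (isForm_massF fun x _ => (hk x).le) (pdef_massF fun x _ => hk x) g)
  unfold Th wt
  rw [← key]
  refine tsum_congr fun ψ => ?_
  rw [← Real.exp_add]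
  congr 1
  simp only [LinearMap.add_apply]
  ring

private theorem dir_En {J : V → V → ℝ} (hJ : IsCoup J) {S R : Finset V} (hd : Disjoint S R)
    {r : V} (hr : r ∈ S) {t : ℝ} (ht : 0 < t) {k : V → ℝ} (hk : ∀ x, 0 < k x) (h : V → ℝ) :
    En (Qfr J S) (S.erase r) h ≤
      En ((Qfr J S + rk t (ev r)) + massF R k) (S ∪ R) h := by
  have hA := Th_pos (hJ.isForm S) (hJ.pdef hr)
  have hB := Th_pos (isForm_rk ht.le (ev r)) (pdef_one (r := r) ht)
  have hC := Th_pos (isForm_massF (S := R) (t := k) fun x _ => (hk x).le)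
    (pdef_massF (R := R) fun x _ => hk x)
  have nB := En_nonneg (isForm_rk ht.le (ev r)) (pdef_one (r := r) ht) h
  have nC := En_nonneg (isForm_massF (S := R) (t := k) fun x _ => (hk x).le)
    (pdef_massF (R := R) fun x _ => hk x) h
  have hfac : En ((Qfr J S + rk t (ev r)) + massF R k) (S ∪ R) h =
      En (Qfr J S) (S.erase r) h + En (rk t (ev r)) {r} h + En (massF R k) R h := by
    unfold En
    rw [dir_Th hJ hd hr ht hk h, dir_Th hJ hd hr ht hk 0]
    have a1 := hA h
    have a0 := hA 0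
    have b1 := hB h
    have b0 := hB 0
    have c1 := hC h
    have c0 := hC 0
    rw [Real.log_div (mul_pos (mul_pos a1 b1) c1).ne' (mul_pos (mul_pos a0 b0) c0).ne',
      Real.log_div a1.ne' a0.ne', Real.log_div b1.ne' b0.ne', Real.log_div c1.ne' c0.ne',
      Real.log_mul (mul_pos a1 b1).ne' c1.ne', Real.log_mul a1.ne' b1.ne',
      Real.log_mul (mul_pos a0 b0).ne' c0.ne', Real.log_mul a0.ne' b0.ne']
    ring
  rw [hfac]
  linarith

/-- Dirichlet functional >= free functional of ANY finite set -/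
theorem En_dir_ge {α β : ℝ} (hα : 4 < α) (hβ : 0 < β) (Λ S : Finset V) (h : V → ℝ)
    (hh : Supp Λ h) : Efr (JJ α β) S h ≤ En (QD α β Λ) Λ h := by
  have hJ : IsCoup (JJ α β) := isCoup_JJ hβ
  have hα2 : 2 < α := by linarith
  rcases S.eq_empty_or_nonempty with rfl | ⟨r, hr⟩
  · rw [Efr_empty hJ]
    exact En_nonneg (isForm_QD hβ.le Λ) (pdef_QD hα2 hβ Λ) h
  rw [Efr_eq hr]
  obtain ⟨Λ', hΛ'⟩ : ∃ Λ' : Finset V, Λ' = Λ ∪ S := ⟨_, rfl⟩
  obtain ⟨R, hR⟩ : ∃ R : Finset V, R = Λ' \ S := ⟨_, rfl⟩
  have hsub : Λ ⊆ Λ' := by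
    rw [hΛ']
    exact Finset.subset_union_left
  have hSsub : S ⊆ Λ' := by
    rw [hΛ']
    exact Finset.subset_union_right
  have hSR : S ∪ R = Λ' := by
    rw [hR]
    exact Finset.union_sdiff_of_subset hSsub
  have hd : Disjoint S R := by
    rw [hR]
    exact Finset.disjoint_sdiff
  have s1 : En (QD α β Λ) Λ h = En (QD α β Λ') Λ h := by
    have key : ∀ g, Supp Λ g → Th (QD α β Λ) Λ g = Th (QD α β Λ') Λ g := by
      intro g hg
      unfold Th wt
      refine tsum_congr fun ψ => ?_
      rw [QD_eq_of_subset hα2 hβ.le hsub ((supp_emb ψ).sub hg)]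
    unfold En
    rw [key h hh, key 0 supp_zero]
  have s2 : En (QD α β Λ') Λ' h ≤ En (QD α β Λ') Λ h :=
    En_sub_lattice (isForm_QD hβ.le Λ') (pdef_QD hα2 hβ Λ') hsub h
  have hk : ∀ x, 0 < kil α β Λ' x := fun x => kil_pos hα2 hβ Λ' x
  have ht : 0 < kil α β Λ' r := hk r
  have hM1 : IsForm (Qfr (JJ α β) S + rk (kil α β Λ' r) (ev r)) :=
    (hJ.isForm S).add (isForm_rk ht.le _)
  have hM2 : IsForm (massF R (kil α β Λ')) := isForm_massF fun x _ => (hk x).le
  have hMf := hM1.add hM2
  have hMP : PDef ((Qfr (JJ α β) S + rk (kil α β Λ' r) (ev r)) + massF R (kil α β Λ')) Λ' := by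
    intro f hf h0
    rw [LinearMap.add_apply, LinearMap.add_apply]
    by_cases hc : ∃ x ∈ R, f x ≠ 0
    · obtain ⟨x, hxR, hx⟩ := hc
      have h1 := dir_massF_pos hk hxR hx
      have h2 := hM1.nonneg f
      linarith
    · have hfS : Supp S f := by
        intro x hx
        by_contra hfx
        by_cases hx' : x ∈ Λ'
        · exact hc ⟨x, by rw [hR]; exact Finset.mem_sdiff.2 ⟨hx', hx⟩, hfx⟩
        · exact hfx (hf x hx')
      have h1 := pdef_pin hJ hr ht f hfS h0
      have h2 := hM2.nonneg f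
      linarith
  have hDf : IsForm (QD α β Λ' -
      ((Qfr (JJ α β) S + rk (kil α β Λ' r) (ev r)) + massF R (kil α β Λ'))) := by
    refine ⟨fun f g => ?_, fun f => ?_⟩
    · rw [LinearMap.sub_apply, LinearMap.sub_apply, LinearMap.sub_apply, LinearMap.sub_apply,
        (isForm_QD hβ.le Λ').symm f g, hMf.symm f g]
    · have e1 : QD α β Λ' f f = Qfr (JJ α β) Λ' f f + massF Λ' (kil α β Λ') f f := rfl
      have e2 := Qfr_union (J := JJ α β) hd f
      rw [hSR] at e2
      have e3 : massF Λ' (kil α β Λ') f f =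
          ∑ x ∈ S, kil α β Λ' x * f x * f x + massF R (kil α β Λ') f f := by
        rw [massF_apply, massF_apply]
        conv_lhs => rw [← hSR]
        rw [Finset.sum_union hd, hSR]
      have e4 : kil α β Λ' r * f r * f r ≤ ∑ x ∈ S, kil α β Λ' x * f x * f x :=
        Finset.single_le_sum (f := fun x => kil α β Λ' x * f x * f x) (fun y _ => by
          show 0 ≤ kil α β Λ' y * f y * f y
          rw [mul_assoc]
          exact mul_nonneg (hk y).le (mul_self_nonneg (f y))) hr
      have e5 : 0 ≤ Qx (JJ α β) S R f := by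
        unfold Qx
        refine Finset.sum_nonneg fun x _ => Finset.sum_nonneg fun y _ => ?_
        have := hJ.nonneg x y
        have := hJ.nonneg y x
        positivity
      have e6 := (hJ.isForm R).nonneg f
      have e7 : rk (kil α β Λ' r) (ev r) f f = kil α β Λ' r * f r * f r := by
        rw [rk_apply, ev_apply]
      rw [LinearMap.sub_apply, LinearMap.sub_apply, LinearMap.add_apply, LinearMap.add_apply,
        LinearMap.add_apply, LinearMap.add_apply, e1, e2, e3, e7]
      linarith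
  have h1 := En_add_form hMf hMP hDf h
  have hcan : ((Qfr (JJ α β) S + rk (kil α β Λ' r) (ev r)) + massF R (kil α β Λ')) +
      (QD α β Λ' - ((Qfr (JJ α β) S + rk (kil α β Λ' r) (ev r)) + massF R (kil α β Λ'))) =
      QD α β Λ' := by
    refine LinearMap.ext fun f => LinearMap.ext fun g => ?_
    simp only [LinearMap.add_apply, LinearMap.sub_apply]
    ring
  rw [hcan] at h1
  have h2 := dir_En hJ hd hr ht hk h
  rw [hSR] at h2
  rw [s1]
  exact (h2.trans h1).trans s2

end Pool.Agent.LR
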