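import Pool.Agent.LR.B2a.Theta
import Pool.Agent.LR.IDefs
import Pool.Agent.LR.B1.Rest

/-!
# LR, block B2a: the free functional `Efr`
-/

set_option autoImplicit false
set_option linter.unusedSectionVars false
set_option linter.unusedVariables false

noncomputable section

open scoped BigOperators Topology
open Filter Set

namespace Pool.Agent.LR

/-- Symmetric, nonnegative, positive off the diagonal. -/
structure IsCoup {W : Type*} (J : W → W → ℝ) : Prop where
  symm : ∀ x y, J x y = J y x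
  nonneg : ∀ x y, 0 ≤ J x y
  pos : ∀ x y, x ≠ y → 0 < J x y

theorem isCoup_JJ {α β : ℝ} (hβ : 0 < β) : IsCoup (JJ α β) :=
  ⟨JJ_symm α β, JJ_nonneg hβ.le, fun _ _ h => JJ_pos hβ h⟩

section Generic

variable {W : Type*} [DecidableEq W] {J : W → W → ℝ}

theorem IsCoup.isForm (hJ : IsCoup J) (S : Finset W) : IsForm (Qfr J S) :=
  isForm_Qfr fun x _ y _ => hJ.nonneg x y

theorem IsCoup.pdef (hJ : IsCoup J) {S : Finset W} {r : W} (hr : r ∈ S) :
    PDef (Qfr J S) (S.erase r) :=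
  pdef_Qfr_erase (fun x _ y _ => hJ.nonneg x y) hr fun x _ h => hJ.pos x r h

theorem pdef_empty (M : BF W) : PDef M ∅ := by
  intro f hf h0
  exact absurd (funext fun x => hf x (Finset.notMem_empty x)) h0

theorem wt_congr {S O : Finset W} {h h' : W → ℝ} {c : ℝ} (hc : ∀ x ∈ S, h x = h' x + c)
    (ψ : O → ℤ) : wt (Qfr J S) O h ψ = wt (Qfr J S) O h' ψ := by
  unfold wt
  rw [Qfr_congr (c := -c) (d := -c) (f := emb O ψ - h) (f' := emb O ψ - h')
    (g := emb O ψ - h) (g' := emb O ψ - h')]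
  · intro x hx
    simp only [Pi.sub_apply]
    rw [hc x hx]
    ring
  · intro x hx
    simp only [Pi.sub_apply]
    rw [hc x hx]
    ring

/-- root change with an invariant observable -/
theorem tsum_wt_root {S : Finset W} {r r' : W} (hr : r ∈ S) (hr' : r' ∈ S) (h : W → ℝ)
    (F : (W → ℝ) → ℝ) (hF : ∀ (f g : W → ℝ) (c : ℤ), (∀ x ∈ S, f x = g x + c) → F f = F g) :
    ∑' ψ : S.erase r → ℤ, wt (Qfr J S) _ h ψ * F (emb _ ψ) =
      ∑' ψ : S.erase r' → ℤ, wt (Qfr J S) _ h ψ * F (emb _ ψ) := by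
  unfold wt
  refine tsum_root hr hr' (fun f => Real.exp (-(1 / 2) * Qfr J S (f - h) (f - h)) * F f) ?_
  intro f g c hfg
  have h1 : ∀ x ∈ S, (f - h) x = (g - h) x + c := fun x hx => by
    simp only [Pi.sub_apply]
    rw [hfg x hx]
    ring
  show Real.exp (-(1 / 2) * Qfr J S (f - h) (f - h)) * F f =
    Real.exp (-(1 / 2) * Qfr J S (g - h) (g - h)) * F g
  rw [Qfr_congr h1 h1, hF f g c hfg]

theorem Th_root {S : Finset W} {r r' : W} (hr : r ∈ S) (hr' : r' ∈ S) (h : W → ℝ) :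
    Th (Qfr J S) (S.erase r) h = Th (Qfr J S) (S.erase r') h := by
  have := tsum_wt_root (J := J) hr hr' h (fun _ => 1) (fun _ _ _ _ => rfl)
  simpa [Th] using this

theorem En_root {S : Finset W} {r r' : W} (hr : r ∈ S) (hr' : r' ∈ S) (h : W → ℝ) :
    En (Qfr J S) (S.erase r) h = En (Qfr J S) (S.erase r') h := by
  unfold En
  rw [Th_root hr hr' h, Th_root hr hr' 0]

theorem Ex_root {S : Finset W} {r r' : W} (hr : r ∈ S) (hr' : r' ∈ S) (h : W → ℝ)
    (F : (W → ℝ) → ℝ) (hF : ∀ (f g : W → ℝ) (c : ℤ), (∀ x ∈ S, f x = g x + c) → F f = F g) :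
    Ex (Qfr J S) (S.erase r) h (fun ψ => F (emb _ ψ)) =
      Ex (Qfr J S) (S.erase r') h (fun ψ => F (emb _ ψ)) := by
  unfold Ex
  rw [Th_root hr hr' h, tsum_wt_root hr hr' h F hF]

theorem pdef_pin (hJ : IsCoup J) {S : Finset W} {r : W} (hr : r ∈ S) {c : ℝ} (hc : 0 < c) :
    PDef (Qfr J S + rk c (ev r)) S := by
  intro f hf h0
  rw [LinearMap.add_apply, LinearMap.add_apply, rk_apply, ev_apply]
  have h1 := (hJ.isForm S).nonneg f
  by_cases hfr : f r = 0
  · have h2 : Supp (S.erase r) f := by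
      intro x hx
      by_cases hxr : x = r
      · rw [hxr]; exact hfr
      · exact hf x fun hxS => hx (Finset.mem_erase.2 ⟨hxr, hxS⟩)
    have h3 := hJ.pdef hr f h2 h0
    rw [hfr]
    linarith
  · have : 0 < c * f r * f r := by
      have : 0 < f r * f r := mul_self_pos.2 hfr
      nlinarith
    linarith

theorem pdef_one {r : W} {c : ℝ} (hc : 0 < c) : PDef (rk c (ev r)) ({r} : Finset W) := by
  intro f hf h0
  rw [rk_apply, ev_apply]
  have hfr : f r ≠ 0 := by
    intro hfr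
    apply h0
    funext x
    by_cases hx : x = r
    · rw [hx]; exact hfr
    · exact hf x (by simpa using hx)
  have : 0 < f r * f r := mul_self_pos.2 hfr
  nlinarith

/-- pinned site: product of the rooted model and a one-dimensional model -/
theorem Th_pin (hJ : IsCoup J) {S : Finset W} {r : W} (hr : r ∈ S) {c : ℝ} (hc : 0 < c)
    (h : W → ℝ) : Th (Qfr J S + rk c (ev r)) S h =
      Th (Qfr J S) (S.erase r) h * Th (rk c (ev r)) {r} h := by
  have key := tsum_shear hr (fun f => Real.exp (-(1 / 2) * Qfr J S (f - h) (f - h)))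
    (fun f => Real.exp (-(1 / 2) * rk c (ev r) (f - h) (f - h)))
    (by
      intro f g k hfg
      have h1 : ∀ x ∈ S, (f - h) x = (g - h) x + k := fun x hx => by
        simp only [Pi.sub_apply]
        rw [hfg x hx]
        ring
      show Real.exp (-(1 / 2) * Qfr J S (f - h) (f - h)) =
        Real.exp (-(1 / 2) * Qfr J S (g - h) (g - h))
      rw [Qfr_congr h1 h1])
    (by
      intro f g hfg
      simp only [rk_apply, ev_apply, Pi.sub_apply]
      rw [hfg])
    (summable_wt (hJ.isForm S) (hJ.pdef hr) h) (summable_wt (isForm_rk hc.le _) (pdef_one hc) h)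
  unfold Th wt
  rw [← key]
  refine tsum_congr fun ψ => ?_
  rw [← Real.exp_add]
  congr 1
  simp only [LinearMap.add_apply]
  ring

/-- cross terms -/
def Qx (J : W → W → ℝ) (S T : Finset W) (f : W → ℝ) : ℝ :=
  ∑ x ∈ S, ∑ y ∈ T, (J x y + J y x) / 2 * (f x - f y) ^ 2

theorem Qfr_union {S T : Finset W} (hd : Disjoint S T) (f : W → ℝ) :
    Qfr J (S ∪ T) f f = Qfr J S f f + Qfr J T f f + Qx J S T f := by
  unfold Qx
  rw [Qfr_self, Qfr_self, Qfr_self, Finset.sum_union hd]
  simp_rw [Finset.sum_union hd, Finset.sum_add_distrib]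
  have h1 : ∑ x ∈ T, ∑ y ∈ S, J x y / 2 * (f x - f y) ^ 2 =
      ∑ x ∈ S, ∑ y ∈ T, J y x / 2 * (f x - f y) ^ 2 := by
    rw [Finset.sum_comm]
    refine Finset.sum_congr rfl fun x _ => Finset.sum_congr rfl fun y _ => by ring
  have h2 : ∑ x ∈ S, ∑ y ∈ T, (J x y + J y x) / 2 * (f x - f y) ^ 2 =
      ∑ x ∈ S, ∑ y ∈ T, J x y / 2 * (f x - f y) ^ 2 +
        ∑ x ∈ S, ∑ y ∈ T, J y x / 2 * (f x - f y) ^ 2 := by
    rw [← Finset.sum_add_distrib]
    refine Finset.sum_congr rfl fun x _ => ?_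
    rw [← Finset.sum_add_distrib]
    refine Finset.sum_congr rfl fun y _ => by ring
  rw [h1, h2]
  ring

theorem Qfr_ignore {S O : Finset W} (hd : Disjoint S O) (h : W → ℝ) (f g : W → ℝ)
    (hfg : ∀ x, x ∉ O → f x = g x) :
    Qfr J S (f - h) (f - h) = Qfr J S (g - h) (g - h) := by
  have h1 : ∀ x ∈ S, (f - h) x = (g - h) x + 0 := fun x hx => by
    simp only [Pi.sub_apply]
    rw [hfg x (Finset.disjoint_left.1 hd hx), add_zero]
  exact Qfr_congr h1 h1

/-- two free blocks joined by one bond -/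
theorem Th_pair (hJ : IsCoup J) {S T : Finset W} (hd : Disjoint S T) {x₀ x₁ : W} (h₀ : x₀ ∈ S)
    (h₁ : x₁ ∈ T) {c : ℝ} (hc : 0 < c) (h : W → ℝ) (hh : h x₀ = 0) :
    Th (Qfr J S + Qfr J T + rk c (ev x₀ - ev x₁)) ((S ∪ T).erase x₀) h =
      Th (Qfr J S) (S.erase x₀) h * (Th (Qfr J T) (T.erase x₁) h * Th (rk c (ev x₁)) {x₁} h) := by
  have hx₀T : x₀ ∉ T := Finset.disjoint_left.1 hd h₀
  have he : (S ∪ T).erase x₀ = S.erase x₀ ∪ T := by
    ext y
    simp only [Finset.mem_erase, Finset.mem_union]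
    constructor
    · rintro ⟨h1, h2 | h2⟩
      · exact Or.inl ⟨h1, h2⟩
      · exact Or.inr h2
    · rintro (⟨h1, h2⟩ | h2)
      · exact ⟨h1, Or.inl h2⟩
      · exact ⟨fun h => hx₀T (h ▸ h2), Or.inr h2⟩
  have hd' : Disjoint (S.erase x₀) T :=
    Finset.disjoint_of_subset_left (Finset.erase_subset _ _) hd
  rw [he, ← Th_pin hJ h₁ hc h]
  have key := tsum_union hd' (fun f => Real.exp (-(1 / 2) * Qfr J S (f - h) (f - h)))
    (fun f => Real.exp (-(1 / 2) * (Qfr J T + rk c (ev x₁)) (f - h) (f - h)))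
    (by
      intro f g hfg
      show Real.exp (-(1 / 2) * Qfr J S (f - h) (f - h)) =
        Real.exp (-(1 / 2) * Qfr J S (g - h) (g - h))
      rw [Qfr_ignore hd h f g hfg])
    (by
      intro f g hfg
      show Real.exp (-(1 / 2) * (Qfr J T + rk c (ev x₁)) (f - h) (f - h)) =
        Real.exp (-(1 / 2) * (Qfr J T + rk c (ev x₁)) (g - h) (g - h))
      simp only [LinearMap.add_apply, rk_apply, ev_apply, Pi.sub_apply]
      rw [Qfr_ignore hd'.symm h f g hfg, hfg x₁ (Finset.disjoint_right.1 hd' h₁)])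
    (summable_wt (hJ.isForm S) (hJ.pdef h₀) h)
    (summable_wt ((hJ.isForm T).add (isForm_rk hc.le _)) (pdef_pin hJ h₁ hc) h)
  unfold Th wt
  rw [← key]
  refine tsum_congr fun ψ => ?_
  rw [← Real.exp_add]
  congr 1
  have h0 : emb (S.erase x₀ ∪ T) ψ x₀ = 0 := by
    apply emb_apply_not
    simp [hx₀T]
  simp only [LinearMap.add_apply, rk_apply, ev_apply, LinearMap.sub_apply, Pi.sub_apply]
  rw [h0, hh]
  ring

theorem pdef_pair (hJ : IsCoup J) {S T : Finset W} {x₀ x₁ : W} (h₀ : x₀ ∈ S)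
    (h₁ : x₁ ∈ T) {c : ℝ} (hc : 0 < c) :
    PDef (Qfr J S + Qfr J T + rk c (ev x₀ - ev x₁)) ((S ∪ T).erase x₀) := by
  intro f hf hne
  simp only [LinearMap.add_apply, rk_apply, ev_apply, LinearMap.sub_apply]
  have hf0 : f x₀ = 0 := hf x₀ (Finset.notMem_erase _ _)
  rw [hf0]
  have hS := (hJ.isForm S).nonneg f
  have hT := (hJ.isForm T).nonneg f
  by_cases h1 : f x₁ = 0
  · obtain ⟨x, hx⟩ := Function.ne_iff.1 hne
    have hx' : f x ≠ 0 := hx
    have hxU : x ∈ S ∪ T := by
      by_contra hxU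
      exact hx' (hf x fun h => hxU (Finset.mem_of_mem_erase h))
    have aux : ∀ (U : Finset W) (r : W), r ∈ U → x ∈ U → f r = 0 → 0 < Qfr J U f f := by
      intro U r hr hxU hfr
      rw [Qfr_self]
      have hnn : ∀ x ∈ U, ∀ y ∈ U, 0 ≤ J x y / 2 * (f x - f y) ^ 2 := fun x _ y _ => by
        have := hJ.nonneg x y
        positivity
      have a1 : J x r / 2 * (f x - f r) ^ 2 ≤ ∑ y ∈ U, J x y / 2 * (f x - f y) ^ 2 :=
        Finset.single_le_sum (f := fun y => J x y / 2 * (f x - f y) ^ 2)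
          (fun y hy => hnn x hxU y hy) hr
      have a2 : ∑ y ∈ U, J x y / 2 * (f x - f y) ^ 2 ≤
          ∑ x ∈ U, ∑ y ∈ U, J x y / 2 * (f x - f y) ^ 2 :=
        Finset.single_le_sum (f := fun x => ∑ y ∈ U, J x y / 2 * (f x - f y) ^ 2)
          (fun x hx => Finset.sum_nonneg fun y hy => hnn x hx y hy) hxU
      have hxr : x ≠ r := fun h => hx' (h ▸ hfr)
      have a3 : 0 < J x r / 2 * (f x - f r) ^ 2 := by
        rw [hfr, sub_zero]
        have := hJ.pos x r hxr
        have h4 : 0 < f x ^ 2 := by positivity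
        positivity
      linarith
    rw [h1]
    rcases Finset.mem_union.1 hxU with h | h
    · have := aux S x₀ h₀ h hf0
      linarith
    · have := aux T x₁ h₁ h h1
      linarith
  · have : 0 < c * (0 - f x₁) * (0 - f x₁) := by
      have : 0 < f x₁ * f x₁ := mul_self_pos.2 h1
      nlinarith
    linarith

/-- Superadditivity, in rooted form. -/
theorem En_union (hJ : IsCoup J) {S T : Finset W} (hd : Disjoint S T) {x₀ x₁ : W} (h₀ : x₀ ∈ S)
    (h₁ : x₁ ∈ T) (h : W → ℝ) (hh : h x₀ = 0) :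
    En (Qfr J S) (S.erase x₀) h + En (Qfr J T) (T.erase x₁) h ≤
      En (Qfr J (S ∪ T)) ((S ∪ T).erase x₀) h := by
  set c : ℝ := (J x₀ x₁ + J x₁ x₀) / 2 with hcdef
  have hne : x₀ ≠ x₁ := fun h => Finset.disjoint_left.1 hd h₀ (h ▸ h₁)
  have hc : 0 < c := by
    have := hJ.pos _ _ hne
    have := hJ.pos _ _ hne.symm
    rw [hcdef]
    linarith
  set M : BF W := Qfr J S + Qfr J T + rk c (ev x₀ - ev x₁) with hM
  have hMf : IsForm M := ((hJ.isForm S).add (hJ.isForm T)).add (isForm_rk hc.le _)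
  have hDf : IsForm (Qfr J (S ∪ T) - M) := by
    refine ⟨fun f g => ?_, fun f => ?_⟩
    · simp only [LinearMap.sub_apply]
      rw [(hJ.isForm (S ∪ T)).symm f g, hMf.symm f g]
    · simp only [LinearMap.sub_apply]
      rw [Qfr_union hd, hM]
      simp only [LinearMap.add_apply, rk_apply, ev_apply, LinearMap.sub_apply]
      have h1 : (J x₀ x₁ + J x₁ x₀) / 2 * (f x₀ - f x₁) ^ 2 ≤ Qx J S T f := by
        unfold Qx
        have hnn : ∀ x ∈ S, ∀ y ∈ T, 0 ≤ (J x y + J y x) / 2 * (f x - f y) ^ 2 :=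
          fun x _ y _ => by
            have := hJ.nonneg x y
            have := hJ.nonneg y x
            positivity
        have a1 := Finset.single_le_sum (f := fun y => (J x₀ y + J y x₀) / 2 * (f x₀ - f y) ^ 2)
          (fun y hy => hnn x₀ h₀ y hy) h₁
        have a2 := Finset.single_le_sum
          (f := fun x => ∑ y ∈ T, (J x y + J y x) / 2 * (f x - f y) ^ 2)
          (fun x hx => Finset.sum_nonneg fun y hy => hnn x hx y hy) h₀
        exact a1.trans a2
      have h2 : c * (f x₀ - f x₁) * (f x₀ - f x₁) =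
          (J x₀ x₁ + J x₁ x₀) / 2 * (f x₀ - f x₁) ^ 2 := by rw [hcdef]; ring
      rw [h2]
      linarith
  have hP : PDef M ((S ∪ T).erase x₀) := pdef_pair hJ h₀ h₁ hc
  have h1 := En_add_form hMf hP hDf h
  have hcan : M + (Qfr J (S ∪ T) - M) = Qfr J (S ∪ T) := by
    refine LinearMap.ext fun f => LinearMap.ext fun g => ?_
    simp only [LinearMap.add_apply, LinearMap.sub_apply]
    ring
  rw [hcan] at h1
  refine le_trans ?_ h1
  -- factorisation
  have hS0 := Th_pos (hJ.isForm S) (hJ.pdef h₀)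
  have hT0 := Th_pos (hJ.isForm T) (hJ.pdef h₁)
  have h10 := Th_pos (isForm_rk hc.le (ev x₁)) (pdef_one (r := x₁) hc)
  have e1 := Th_pair hJ hd h₀ h₁ hc h hh
  have e2 := Th_pair hJ hd h₀ h₁ hc (0 : W → ℝ) rfl
  have hen := En_nonneg (isForm_rk hc.le (ev x₁)) (pdef_one (r := x₁) hc) h
  have hfac : En M ((S ∪ T).erase x₀) h = En (Qfr J S) (S.erase x₀) h +
      En (Qfr J T) (T.erase x₁) h + En (rk c (ev x₁)) {x₁} h := by
    unfold En
    rw [hM, e1, e2]
    rw [Real.log_div (by have := hS0 h; have := hT0 h; have := h10 h; positivity)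
      (by have := hS0 0; have := hT0 0; have := h10 0; positivity)]
    rw [Real.log_div (hS0 h).ne' (hS0 0).ne', Real.log_div (hT0 h).ne' (hT0 0).ne',
      Real.log_div (h10 h).ne' (h10 0).ne']
    rw [Real.log_mul (hS0 h).ne' (by have := hT0 h; have := h10 h; positivity),
      Real.log_mul (hT0 h).ne' (h10 h).ne', Real.log_mul (hS0 0).ne'
      (by have := hT0 0; have := h10 0; positivity), Real.log_mul (hT0 0).ne' (h10 0).ne']
    ring
  rw [hfac]
  linarith

end Generic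

section Generic2

variable {W : Type*} [DecidableEq W] [Inhabited W] {J : W → W → ℝ}

theorem root_mem {S : Finset W} (hS : S.Nonempty) : root S ∈ S := by
  unfold root
  rw [dif_pos hS]
  exact hS.choose_spec

/-- also for `S = ∅` -/
theorem IsCoup.pdef_root (hJ : IsCoup J) (S : Finset W) :
    PDef (Qfr J S) (S.erase (root S)) := by
  rcases S.eq_empty_or_nonempty with rfl | hS
  · rw [Finset.erase_empty]
    exact pdef_empty _
  · exact hJ.pdef (root_mem hS)

/-- the root is arbitrary -/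
theorem Efr_eq {S : Finset W} {r : W} (hr : r ∈ S) (h : W → ℝ) :
    Efr J S h = En (Qfr J S) (S.erase r) h := En_root (root_mem ⟨r, hr⟩) hr h

/-- depends only on `h` on `S` up to constants -/
theorem Efr_congr {S : Finset W} {h h' : W → ℝ} {c : ℝ} (hc : ∀ x ∈ S, h x = h' x + c) :
    Efr J S h = Efr J S h' := by
  unfold Efr En Th
  simp_rw [wt_congr (J := J) hc]

theorem Efr_nonneg (hJ : IsCoup J) (S : Finset W) (h : W → ℝ) : 0 ≤ Efr J S h :=
  En_nonneg (hJ.isForm S) (hJ.pdef_root S) h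

theorem Efr_zero (hJ : IsCoup J) (S : Finset W) : Efr J S 0 = 0 :=
  En_zero (hJ.isForm S) (hJ.pdef_root S)

theorem Efr_const (hJ : IsCoup J) (S : Finset W) (c : ℝ) : Efr J S (fun _ => c) = 0 := by
  rw [← Efr_zero hJ S]
  exact Efr_congr (c := c) fun x _ => by simp

theorem Efr_neg (S : Finset W) (h : W → ℝ) : Efr J S (-h) = Efr J S h := En_neg _ _ _

theorem Efr_rsd (hJ : IsCoup J) (S : Finset W) (x y : W → ℝ) :
    Efr J S (x + y) + Efr J S (x - y) ≤ 2 * Efr J S x + 2 * Efr J S y :=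
  En_rsd (hJ.isForm S) (hJ.pdef_root S) x y

theorem Efr_le (hJ : IsCoup J) (S : Finset W) (h : W → ℝ) : Efr J S h ≤ Qfr J S h h / 2 :=
  En_le (hJ.isForm S) (hJ.pdef_root S) h

theorem Efr_sqrt_lip (hJ : IsCoup J) (S : Finset W) (x y : W → ℝ) :
    |Real.sqrt (2 * Efr J S x) - Real.sqrt (2 * Efr J S y)| ≤
      Real.sqrt (Qfr J S (x - y) (x - y)) :=
  En_sqrt_lip (hJ.isForm S) (hJ.pdef_root S) x y

theorem Efr_empty (hJ : IsCoup J) (h : W → ℝ) : Efr J ∅ h = 0 := by
  rw [← Efr_zero hJ ∅]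
  exact Efr_congr (c := 0) fun x hx => absurd hx (Finset.notMem_empty x)

theorem Efr_union (hJ : IsCoup J) {S T : Finset W} (hd : Disjoint S T) (h : W → ℝ) :
    Efr J S h + Efr J T h ≤ Efr J (S ∪ T) h := by
  rcases S.eq_empty_or_nonempty with rfl | ⟨x₀, h₀⟩
  · rw [Efr_empty hJ, zero_add, Finset.empty_union]
  rcases T.eq_empty_or_nonempty with rfl | ⟨x₁, h₁⟩
  · rw [Efr_empty hJ, add_zero, Finset.union_empty]
  have key : ∀ U : Finset W, Efr J U h = Efr J U (fun x => h x - h x₀) := fun U =>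
    Efr_congr (c := h x₀) fun x _ => by ring
  rw [key S, key T, key (S ∪ T), Efr_eq h₀, Efr_eq h₁, Efr_eq (Finset.mem_union_left T h₀)]
  exact En_union hJ hd h₀ h₁ _ (by simp)

theorem Efr_sdiff (hJ : IsCoup J) {S T : Finset W} (hST : S ⊆ T) (h : W → ℝ) :
    Efr J S h + Efr J (T \ S) h ≤ Efr J T h := by
  have := Efr_union hJ (S := S) (T := T \ S) Finset.disjoint_sdiff h
  rwa [Finset.union_sdiff_of_subset hST] at this

theorem Efr_mono (hJ : IsCoup J) {S T : Finset W} (hST : S ⊆ T) (h : W → ℝ) :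
    Efr J S h ≤ Efr J T h := by
  have h1 := Efr_sdiff hJ hST h
  have h2 := Efr_nonneg hJ (T \ S) h
  linarith

theorem Efr_biUnion (hJ : IsCoup J) {ι : Type*} (s : Finset ι) (B : ι → Finset W) (T : Finset W)
    (hd : ∀ i ∈ s, ∀ j ∈ s, i ≠ j → Disjoint (B i) (B j)) (hT : ∀ i ∈ s, B i ⊆ T) (h : W → ℝ) :
    ∑ i ∈ s, Efr J (B i) h ≤ Efr J T h := by
  classical
  induction s using Finset.induction_on generalizing T with
  | empty => simpa using Efr_nonneg hJ T h
  | insert a s ha ih =>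
    rw [Finset.sum_insert ha]
    have h1 := Efr_sdiff hJ (hT a (Finset.mem_insert_self a s)) h
    have h2 := ih (T \ B a)
      (fun i hi j hj hij => hd i (Finset.mem_insert_of_mem hi) j (Finset.mem_insert_of_mem hj) hij)
      (fun i hi => by
        intro x hx
        refine Finset.mem_sdiff.2 ⟨hT i (Finset.mem_insert_of_mem hi) hx, fun hxa => ?_⟩
        have hne : i ≠ a := fun h => ha (h ▸ hi)
        exact Finset.disjoint_left.1 (hd i (Finset.mem_insert_of_mem hi) a
          (Finset.mem_insert_self a s) hne) hx hxa)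
    linarith

/-- isometries -/
theorem Efr_map (θ : W ≃ W) (hθ : ∀ x y, J (θ x) (θ y) = J x y) (S : Finset W) (h : W → ℝ) :
    Efr J (S.map θ.toEmbedding) h = Efr J S (h ∘ θ) := by
  rcases S.eq_empty_or_nonempty with rfl | ⟨r, hr⟩
  · rw [Finset.map_empty]
    exact Efr_congr (c := 0) fun x hx => absurd hx (Finset.notMem_empty x)
  have hr' : θ r ∈ S.map θ.toEmbedding := Finset.mem_map_of_mem θ.toEmbedding hr
  rw [Efr_eq hr', Efr_eq hr]
  have he : (S.map θ.toEmbedding).erase (θ r) = (S.erase r).map θ.toEmbedding := by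
    rw [Finset.map_erase]
    rfl
  have key : ∀ h : W → ℝ, Th (Qfr J (S.map θ.toEmbedding)) ((S.erase r).map θ.toEmbedding) h =
      Th (Qfr J S) (S.erase r) (h ∘ θ) := by
    intro h
    unfold Th wt
    rw [tsum_map θ (S.erase r) (fun f => Real.exp (-(1 / 2) *
      Qfr J (S.map θ.toEmbedding) (f - h) (f - h)))]
    refine tsum_congr fun ψ => ?_
    congr 2
    rw [Qfr_self, Qfr_self, Finset.sum_map]
    refine Finset.sum_congr rfl fun x _ => ?_
    rw [Finset.sum_map]
    refine Finset.sum_congr rfl fun y _ => ?_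
    simp only [Equiv.coe_toEmbedding, Pi.sub_apply, Function.comp_apply, Equiv.symm_apply_apply]
    rw [hθ]
  unfold En
  rw [he, key h, key 0]
  rfl

end Generic2

/-- root change for expectations of functions invariant under integer shifts -/
theorem Exr_eq {J : V → V → ℝ} {S : Finset V} {r : V} (hr : r ∈ S) (h : V → ℝ)
    (F : (V → ℝ) → ℝ) (hF : ∀ (f g : V → ℝ) (c : ℤ), (∀ x ∈ S, f x = g x + c) → F f = F g) :
    Exr J S h F = Ex (Qfr J S) (S.erase r) h (fun ψ => F (emb _ ψ)) :=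
  Ex_root (root_mem ⟨r, hr⟩) hr h F hF

end Pool.Agent.LR
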