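import Pool.Agent.LR.B2a.Efr

/-!
# LR, block B2a: the effective stiffness `κ`
-/

set_option autoImplicit false
set_option linter.unusedSectionVars false
set_option linter.unusedVariables false

noncomputable section

open scoped BigOperators Topology
open Filter Set

namespace Pool.Agent.LR

section Generic

variable {W : Type*} [DecidableEq W] [Inhabited W] {J : W → W → ℝ}

/-- the quadratic form of the free model on `S` -/
def qS (J : W → W → ℝ) (S : Finset W) (h : W → ℝ) : ℝ := qf (Qfr J S) (S.erase (root S)) h h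

theorem qS_smul (S : Finset W) (c : ℝ) (h : W → ℝ) : qS J S (c • h) = c ^ 2 * qS J S h := by
  unfold qS qf
  have h1 : Ex (Qfr J S) (S.erase (root S)) 0
      (fun ψ => Qfr J S (emb (S.erase (root S)) ψ) (c • h) *
        Qfr J S (emb (S.erase (root S)) ψ) (c • h)) =
      c ^ 2 * Ex (Qfr J S) (S.erase (root S)) 0
        (fun ψ => Qfr J S (emb (S.erase (root S)) ψ) h *
          Qfr J S (emb (S.erase (root S)) ψ) h) := by
    rw [← Ex_mul_left]
    congr 1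
    funext ψ
    simp only [map_smul, smul_eq_mul]
    ring
  rw [h1, smul_sq]
  ring

theorem Efr_le_qS (hJ : IsCoup J) (S : Finset W) (h : W → ℝ) : 2 * Efr J S h ≤ qS J S h :=
  En_le_qf (hJ.isForm S) (hJ.pdef_root S) h

theorem qS_nonneg (hJ : IsCoup J) (S : Finset W) (h : W → ℝ) : 0 ≤ qS J S h :=
  qf_nonneg (hJ.isForm S) (hJ.pdef_root S) h

theorem qS_le (hJ : IsCoup J) (S : Finset W) (h : W → ℝ) : qS J S h ≤ Qfr J S h h :=
  qf_le (Qfr J S) (S.erase (root S)) h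

/-- `n² 2E(h/n) → q(h)` -/
theorem tendsto_qS (hJ : IsCoup J) (S : Finset W) (h : W → ℝ) :
    Tendsto (fun n : ℕ => (n : ℝ) ^ 2 * (2 * Efr J S ((1 / (n : ℝ)) • h))) atTop
      (𝓝 (qS J S h)) := by
  set Q : ℝ := Qfr J S h h with hQ
  have hQ0 : 0 ≤ Q := (hJ.isForm S).nonneg h
  have hlow : Tendsto (fun n : ℕ => qS J S h - 4 * Q ^ 2 * (1 / (n : ℝ)) ^ 2) atTop
      (𝓝 (qS J S h)) := by
    have h1 : Tendsto (fun n : ℕ => (1 / (n : ℝ)) ^ 2) atTop (𝓝 0) := by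
      have := (tendsto_one_div_atTop_nhds_zero_nat (𝕜 := ℝ)).pow 2
      simpa using this
    have h2 := (h1.const_mul (4 * Q ^ 2)).const_sub (qS J S h)
    simpa using h2
  refine tendsto_of_tendsto_of_tendsto_of_le_of_le' hlow tendsto_const_nhds ?_ ?_
  · have hev : ∀ᶠ n : ℕ in atTop, Q + 1 ≤ (n : ℝ) := by
      exact tendsto_natCast_atTop_atTop.eventually (eventually_ge_atTop (Q + 1))
    filter_upwards [hev] with n hn
    have hn0 : (0 : ℝ) < n := by linarith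
    have hn1 : (1 : ℝ) ≤ n := by linarith
    have hsm : Qfr J S ((1 / (n : ℝ)) • h) ((1 / (n : ℝ)) • h) = (1 / (n : ℝ)) ^ 2 * Q :=
      smul_sq _ _ _
    have hle1 : Qfr J S ((1 / (n : ℝ)) • h) ((1 / (n : ℝ)) • h) ≤ 1 := by
      rw [hsm, one_div, inv_pow, inv_mul_le_iff₀ (by positivity)]
      nlinarith
    have h1 := qf_sub_le (hJ.isForm S) (hJ.pdef_root S) _ hle1
    have h2 : qf (Qfr J S) (S.erase (root S)) ((1 / (n : ℝ)) • h) ((1 / (n : ℝ)) • h) =
        (1 / (n : ℝ)) ^ 2 * qS J S h := qS_smul S _ h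
    rw [h2, hsm] at h1
    have h3 : (n : ℝ) ^ 2 * ((1 / (n : ℝ)) ^ 2 * qS J S h - 4 * ((1 / (n : ℝ)) ^ 2 * Q) ^ 2) =
        qS J S h - 4 * Q ^ 2 * (1 / (n : ℝ)) ^ 2 := by
      field_simp
    calc qS J S h - 4 * Q ^ 2 * (1 / (n : ℝ)) ^ 2
        = (n : ℝ) ^ 2 * ((1 / (n : ℝ)) ^ 2 * qS J S h - 4 * ((1 / (n : ℝ)) ^ 2 * Q) ^ 2) := h3.symm
      _ ≤ (n : ℝ) ^ 2 * (2 * Efr J S ((1 / (n : ℝ)) • h)) :=
          mul_le_mul_of_nonneg_left h1 (by positivity)
  · filter_upwards [eventually_gt_atTop 0] with n hn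
    have hn0 : (0 : ℝ) < n := by exact_mod_cast hn
    have h1 := Efr_le_qS hJ S ((1 / (n : ℝ)) • h)
    rw [qS_smul] at h1
    calc (n : ℝ) ^ 2 * (2 * Efr J S ((1 / (n : ℝ)) • h))
        ≤ (n : ℝ) ^ 2 * ((1 / (n : ℝ)) ^ 2 * qS J S h) :=
          mul_le_mul_of_nonneg_left h1 (by positivity)
      _ = qS J S h := by field_simp

/-- comparison of quadratic forms from comparison of functionals -/
theorem qS_le_of_Efr (hJ : IsCoup J) {S T : Finset W} {h h' : W → ℝ}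
    (hc : ∀ c : ℝ, Efr J S (c • h) ≤ Efr J T (c • h')) : qS J S h ≤ qS J T h' :=
  le_of_tendsto_of_tendsto' (tendsto_qS hJ S h) (tendsto_qS hJ T h') fun n => by
    have := hc (1 / (n : ℝ))
    have h2 : (0 : ℝ) ≤ (n : ℝ) ^ 2 := by positivity
    nlinarith

theorem qS_eq_of_Efr (hJ : IsCoup J) {S T : Finset W} {h h' : W → ℝ}
    (hc : ∀ c : ℝ, Efr J S (c • h) = Efr J T (c • h')) : qS J S h = qS J T h' :=
  le_antisymm (qS_le_of_Efr hJ fun c => (hc c).le) (qS_le_of_Efr hJ fun c => (hc c).ge)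

theorem qS_rsd (hJ : IsCoup J) (S : Finset W) (x y : W → ℝ) :
    qS J S (x + y) + qS J S (x - y) ≤ 2 * qS J S x + 2 * qS J S y := by
  have h1 := (tendsto_qS hJ S (x + y)).add (tendsto_qS hJ S (x - y))
  have h2 := ((tendsto_qS hJ S x).const_mul 2).add ((tendsto_qS hJ S y).const_mul 2)
  refine le_of_tendsto_of_tendsto' h1 h2 fun n => ?_
  have h3 := Efr_rsd hJ S ((1 / (n : ℝ)) • x) ((1 / (n : ℝ)) • y)
  rw [← smul_add, ← smul_sub] at h3
  have h4 : (0 : ℝ) ≤ (n : ℝ) ^ 2 := by positivity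
  nlinarith

/-- parallelogram identity -/
theorem qS_para (hJ : IsCoup J) (S : Finset W) (x y : W → ℝ) :
    qS J S (x + y) + qS J S (x - y) = 2 * qS J S x + 2 * qS J S y := by
  refine le_antisymm (qS_rsd hJ S x y) ?_
  have h1 := qS_rsd hJ S (x + y) (x - y)
  have e1 : x + y + (x - y) = (2 : ℝ) • x := by
    funext z
    simp only [Pi.add_apply, Pi.sub_apply, Pi.smul_apply, smul_eq_mul]
    ring
  have e2 : x + y - (x - y) = (2 : ℝ) • y := by
    funext z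
    simp only [Pi.add_apply, Pi.sub_apply, Pi.smul_apply, smul_eq_mul]
    ring
  rw [e1, e2, qS_smul, qS_smul] at h1
  linarith

theorem qS_biUnion (hJ : IsCoup J) {ι : Type*} (s : Finset ι) (B : ι → Finset W) (T : Finset W)
    (hd : ∀ i ∈ s, ∀ j ∈ s, i ≠ j → Disjoint (B i) (B j)) (hT : ∀ i ∈ s, B i ⊆ T) (h : W → ℝ) :
    ∑ i ∈ s, qS J (B i) h ≤ qS J T h := by
  have h1 : Tendsto (fun n : ℕ => ∑ i ∈ s, (n : ℝ) ^ 2 * (2 * Efr J (B i) ((1 / (n : ℝ)) • h)))
      atTop (𝓝 (∑ i ∈ s, qS J (B i) h)) := tendsto_finsetSum _ fun i _ => tendsto_qS hJ (B i) h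
  refine le_of_tendsto_of_tendsto' h1 (tendsto_qS hJ T h) fun n => ?_
  have h2 := Efr_biUnion hJ s B T hd hT ((1 / (n : ℝ)) • h)
  have h4 : (0 : ℝ) ≤ (n : ℝ) ^ 2 := by positivity
  calc ∑ i ∈ s, (n : ℝ) ^ 2 * (2 * Efr J (B i) ((1 / (n : ℝ)) • h))
      = (n : ℝ) ^ 2 * (2 * ∑ i ∈ s, Efr J (B i) ((1 / (n : ℝ)) • h)) := by
        rw [Finset.mul_sum, Finset.mul_sum]
    _ ≤ _ := by nlinarith

end Generic

/-! ## Squares -/

/-- The square with lower left corner `a` and side `N` (`N²` sites). -/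
def sqB (a : V) (N : ℕ) : Finset V := Finset.Ico a.1 (a.1 + N) ×ˢ Finset.Ico a.2 (a.2 + N)

theorem mem_sqB {a : V} {N : ℕ} {x : V} :
    x ∈ sqB a N ↔ (a.1 ≤ x.1 ∧ x.1 < a.1 + N) ∧ a.2 ≤ x.2 ∧ x.2 < a.2 + N := by
  simp [sqB, Finset.mem_product, Finset.mem_Ico]

theorem card_sqB (a : V) (N : ℕ) : (sqB a N).card = N * N := by
  simp [sqB, Finset.card_product]

/-- linear functions -/
def lin (s t : ℝ) : V → ℝ := fun x => s * x.1 + t * x.2

/-- translation by `a` -/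
def trV (a : V) : V ≃ V := Equiv.addRight a

theorem trV_apply (a x : V) : trV a x = x + a := rfl

theorem sqB_map (a : V) (N : ℕ) : (sqB 0 N).map (trV a).toEmbedding = sqB a N := by
  ext x
  simp only [Finset.mem_map, mem_sqB, Equiv.coe_toEmbedding, trV_apply, Prod.fst_zero,
    Prod.snd_zero]
  constructor
  · rintro ⟨y, hy, rfl⟩
    simp only [Prod.fst_add, Prod.snd_add]
    omega
  · intro h
    refine ⟨x - a, ?_, by simp⟩
    simp only [Prod.fst_sub, Prod.snd_sub]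
    omega

/-- translation invariance on squares -/
theorem Efr_sqB {α β : ℝ} (a : V) (N : ℕ) (h : V → ℝ) :
    Efr (JJ α β) (sqB a N) h = Efr (JJ α β) (sqB 0 N) (fun x => h (x + a)) := by
  rw [← sqB_map a N, Efr_map (trV a) (fun x y => JJ_add_right α β x y a)]
  rfl

theorem Efr_sqB_lin {α β : ℝ} (a : V) (N : ℕ) {s t c : ℝ} {h : V → ℝ}
    (hh : ∀ x ∈ sqB a N, h x = s * x.1 + t * x.2 + c) :
    Efr (JJ α β) (sqB a N) h = Efr (JJ α β) (sqB 0 N) (lin s t) := by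
  rw [Efr_sqB]
  refine Efr_congr (c := s * a.1 + t * a.2 + c) fun x hx => ?_
  rw [hh (x + a)]
  · simp only [lin, Prod.fst_add, Prod.snd_add, Int.cast_add]
    ring
  · rw [← sqB_map a N]
    exact Finset.mem_map_of_mem (trV a).toEmbedding hx

/-- reflection of the square `sqB 0 N` in the second coordinate -/
def refV (N : ℕ) : V ≃ V := (Equiv.refl ℤ).prodCongr (Equiv.subLeft ((N : ℤ) - 1))

theorem refV_apply (N : ℕ) (x : V) : refV N x = (x.1, (N : ℤ) - 1 - x.2) := rfl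

theorem refV_map (N : ℕ) : (sqB 0 N).map (refV N).toEmbedding = sqB 0 N := by
  ext x
  simp only [Finset.mem_map, mem_sqB, Equiv.coe_toEmbedding, refV_apply, Prod.fst_zero,
    Prod.snd_zero]
  constructor
  · rintro ⟨y, hy, rfl⟩
    simp only
    omega
  · intro h
    refine ⟨(x.1, (N : ℤ) - 1 - x.2), ?_, ?_⟩
    · simp only
      omega
    · ext
      · rfl
      · simp only
        ring

theorem JJ_refV (α β : ℝ) (N : ℕ) (x y : V) : JJ α β (refV N x) (refV N y) = JJ α β x y := by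
  unfold JJ
  have : refV N x - refV N y = ((x - y).1, -(x - y).2) := by
    rw [refV_apply, refV_apply]
    ext
    · rfl
    · simp only [Prod.snd_sub]
      ring
  rw [this, Jc_neg_snd]

theorem JJ_swapV (α β : ℝ) (x y : V) : JJ α β (swapV x) (swapV y) = JJ α β x y := by
  unfold JJ
  have : swapV x - swapV y = ((x - y).2, (x - y).1) := by
    ext <;> rfl
  rw [this, Jc_swap]

theorem swapV_map (N : ℕ) : (sqB 0 N).map swapV.toEmbedding = sqB 0 N := by
  ext x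
  simp only [Finset.mem_map, mem_sqB, Equiv.coe_toEmbedding, Prod.fst_zero, Prod.snd_zero]
  constructor
  · rintro ⟨y, hy, rfl⟩
    have h1 : (swapV y).1 = y.2 := rfl
    have h2 : (swapV y).2 = y.1 := rfl
    rw [h1, h2]
    omega
  · intro h
    refine ⟨(x.2, x.1), ?_, rfl⟩
    simp only
    omega

/-- quadratic form of the square of side `N` on linear functions -/
def qN (α β : ℝ) (N : ℕ) (s t : ℝ) : ℝ := qS (JJ α β) (sqB 0 N) (lin s t)

theorem lin_smul (c s t : ℝ) : c • lin s t = lin (c * s) (c * t) := by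
  funext x
  simp only [lin, Pi.smul_apply, smul_eq_mul]
  ring

theorem qN_neg {α β : ℝ} (hβ : 0 < β) (N : ℕ) (s t : ℝ) : qN α β N s (-t) = qN α β N s t := by
  unfold qN
  refine qS_eq_of_Efr (isCoup_JJ hβ) fun c => ?_
  conv_rhs => rw [← refV_map N, Efr_map (refV N) (JJ_refV α β N)]
  refine Efr_congr (c := -(c * t * ((N : ℝ) - 1))) fun x _ => ?_
  simp only [Pi.smul_apply, smul_eq_mul, lin, Function.comp_apply, refV_apply, Int.cast_sub,
    Int.cast_natCast, Int.cast_one]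
  ring

theorem qN_swap {α β : ℝ} (hβ : 0 < β) (N : ℕ) (s t : ℝ) : qN α β N s t = qN α β N t s := by
  unfold qN
  refine qS_eq_of_Efr (isCoup_JJ hβ) fun c => ?_
  conv_rhs => rw [← swapV_map N, Efr_map swapV (JJ_swapV α β)]
  refine Efr_congr (c := 0) fun x _ => ?_
  have h1 : (swapV x).1 = x.2 := rfl
  have h2 : (swapV x).2 = x.1 := rfl
  simp only [Pi.smul_apply, smul_eq_mul, lin, Function.comp_apply, h1, h2]
  ring

theorem qN_eq {α β : ℝ} (hβ : 0 < β) (N : ℕ) (s t : ℝ) :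
    qN α β N s t = qN α β N 1 0 * (s ^ 2 + t ^ 2) := by
  have h1 := qS_para (isCoup_JJ (α := α) hβ) (sqB 0 N) (lin s 0) (lin 0 t)
  have e1 : lin s 0 + lin 0 t = lin s t := by
    funext x
    simp only [lin, Pi.add_apply]
    ring
  have e2 : lin s 0 - lin 0 t = lin s (-t) := by
    funext x
    simp only [lin, Pi.sub_apply]
    ring
  rw [e1, e2] at h1
  have h2 : qS (JJ α β) (sqB 0 N) (lin s (-t)) = qS (JJ α β) (sqB 0 N) (lin s t) :=
    qN_neg hβ N s t
  have e3 : lin s 0 = s • lin 1 0 := by rw [lin_smul]; simp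
  have e4 : lin 0 t = t • lin 0 1 := by rw [lin_smul]; simp
  rw [h2, e3, e4, qS_smul, qS_smul] at h1
  have h3 : qS (JJ α β) (sqB 0 N) (lin 0 1) = qS (JJ α β) (sqB 0 N) (lin 1 0) :=
    qN_swap hβ N 0 1
  rw [h3] at h1
  unfold qN
  linarith

/-- stiffness of the square of side `N` -/
def kapN (α β : ℝ) (N : ℕ) : ℝ := qN α β N 1 0 / (N : ℝ) ^ 2

theorem kapN_nonneg {α β : ℝ} (hβ : 0 < β) (N : ℕ) : 0 ≤ kapN α β N :=
  div_nonneg (qS_nonneg (isCoup_JJ hβ) _ _) (by positivity)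

theorem QF_lin_le {α β : ℝ} (hα : 4 < α) (hβ : 0 < β) (S : Finset V) :
    QF α β S (lin 1 0) (lin 1 0) ≤ cc α β * S.card := by
  rw [QF_self]
  have h1 : ∀ x ∈ S, ∑ y ∈ S, JJ α β x y / 2 * (lin 1 0 x - lin 1 0 y) ^ 2 ≤ cc α β := by
    intro x _
    have hs : Summable fun y : V => JJ α β x y * ((x - y).1 : ℝ) ^ 2 := by
      have h := (Equiv.subLeft x).summable_iff.2 (summable_Jc_fst_sq hα hβ.le)
      refine h.congr fun y => ?_
      simp only [Function.comp_apply, Equiv.subLeft_apply, JJ]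
    have ht : ∑' y : V, JJ α β x y * ((x - y).1 : ℝ) ^ 2 = 2 * cc α β := by
      rw [← tsum_Jc_fst_sq hα hβ.le,
        ← (Equiv.subLeft x).tsum_eq (fun v => Jc α β v * (v.1 : ℝ) ^ 2)]
      refine tsum_congr fun y => ?_
      simp only [Equiv.subLeft_apply, JJ]
    calc ∑ y ∈ S, JJ α β x y / 2 * (lin 1 0 x - lin 1 0 y) ^ 2
        = 1 / 2 * ∑ y ∈ S, JJ α β x y * ((x - y).1 : ℝ) ^ 2 := by
          rw [Finset.mul_sum]
          refine Finset.sum_congr rfl fun y _ => ?_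
          simp only [lin, Prod.fst_sub, Int.cast_sub]
          ring
      _ ≤ 1 / 2 * ∑' y : V, JJ α β x y * ((x - y).1 : ℝ) ^ 2 := by
          apply mul_le_mul_of_nonneg_left _ (by norm_num)
          exact hs.sum_le_tsum _ fun y _ => mul_nonneg (JJ_nonneg hβ.le x y) (sq_nonneg _)
      _ = cc α β := by rw [ht]; ring
  calc _ ≤ ∑ _x ∈ S, cc α β := Finset.sum_le_sum h1
    _ = _ := by rw [Finset.sum_const, nsmul_eq_mul]; ring

theorem kapN_le {α β : ℝ} (hα : 4 < α) (hβ : 0 < β) (N : ℕ) : kapN α β N ≤ cc α β := by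
  unfold kapN
  rcases Nat.eq_zero_or_pos N with rfl | hN
  · simpa using (cc_pos hα hβ).le
  have hN' : (0 : ℝ) < N := by exact_mod_cast hN
  rw [div_le_iff₀ (by positivity)]
  have h1 := qS_le (isCoup_JJ (α := α) hβ) (sqB 0 N) (lin 1 0)
  have h2 := QF_lin_le hα hβ (sqB 0 N)
  rw [card_sqB] at h2
  have h3 : QF α β (sqB 0 N) (lin 1 0) (lin 1 0) =
      Qfr (JJ α β) (sqB 0 N) (lin 1 0) (lin 1 0) := rfl
  rw [h3] at h2
  push_cast at h2
  unfold qN
  calc _ ≤ _ := h1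
    _ ≤ _ := h2
    _ = _ := by ring

/-- The effective stiffness. -/
def kap (α β : ℝ) : ℝ := ⨆ N : ℕ, kapN α β N

theorem bddAbove_kapN {α β : ℝ} (hα : 4 < α) (hβ : 0 < β) :
    BddAbove (Set.range (kapN α β)) := ⟨cc α β, by
  rintro _ ⟨N, rfl⟩
  exact kapN_le hα hβ N⟩

theorem kapN_le_kap {α β : ℝ} (hα : 4 < α) (hβ : 0 < β) (N : ℕ) : kapN α β N ≤ kap α β :=
  le_ciSup (bddAbove_kapN hα hβ) N

theorem kap_nonneg {α β : ℝ} (hα : 4 < α) (hβ : 0 < β) : 0 ≤ kap α β :=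
  (kapN_nonneg hβ 0).trans (kapN_le_kap hα hβ 0)

theorem kap_le {α β : ℝ} (hα : 4 < α) (hβ : 0 < β) : kap α β ≤ cc α β :=
  ciSup_le fun N => kapN_le hα hβ N

/-- linear functions on squares -/
theorem Efr_lin_le {α β : ℝ} (hα : 4 < α) (hβ : 0 < β) (a : V) (N : ℕ) (s t c : ℝ) (h : V → ℝ)
    (hh : ∀ x ∈ sqB a N, h x = s * x.1 + t * x.2 + c) :
    Efr (JJ α β) (sqB a N) h ≤ kap α β / 2 * (s ^ 2 + t ^ 2) * (N : ℝ) ^ 2 := by
  rw [Efr_sqB_lin a N hh]
  have h1 := Efr_le_qS (isCoup_JJ (α := α) hβ) (sqB 0 N) (lin s t)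
  have h2 : qS (JJ α β) (sqB 0 N) (lin s t) = qN α β N 1 0 * (s ^ 2 + t ^ 2) := qN_eq hβ N s t
  have h3 : qN α β N 1 0 = kapN α β N * (N : ℝ) ^ 2 := by
    rcases Nat.eq_zero_or_pos N with rfl | hN
    · have h4 := qS_le (isCoup_JJ (α := α) hβ) (sqB 0 0) (lin 1 0)
      have h5 := qS_nonneg (isCoup_JJ (α := α) hβ) (sqB 0 0) (lin 1 0)
      have h6 : sqB 0 0 = ∅ := by
        ext x
        simp [mem_sqB]
      rw [h6] at h4 h5
      have h7 : Qfr (JJ α β) ∅ (lin 1 0) (lin 1 0) = 0 := by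
        rw [Qfr_self]
        simp
      rw [h7] at h4
      have : qN α β 0 1 0 = 0 := by
        unfold qN
        rw [h6]
        exact le_antisymm h4 h5
      rw [this]
      simp
    · have hN' : (0 : ℝ) < N := by exact_mod_cast hN
      unfold kapN
      field_simp
  have h4 := kapN_le_kap hα hβ N
  have h5 : (0 : ℝ) ≤ (s ^ 2 + t ^ 2) * (N : ℝ) ^ 2 := by positivity
  rw [h2, h3] at h1
  nlinarith [mul_le_mul_of_nonneg_right h4 h5]

/-- asymptotics on a fixed square -/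
theorem tendsto_lin {α β : ℝ} (hβ : 0 < β) (N : ℕ) (s t : ℝ) :
    Tendsto (fun n : ℕ => (n : ℝ) ^ 2 * (2 * Efr (JJ α β) (sqB 0 N) (lin (s / n) (t / n)))) atTop
      (𝓝 (qN α β N 1 0 * (s ^ 2 + t ^ 2))) := by
  have h1 := tendsto_qS (isCoup_JJ (α := α) hβ) (sqB 0 N) (lin s t)
  have h2 : qS (JJ α β) (sqB 0 N) (lin s t) = qN α β N 1 0 * (s ^ 2 + t ^ 2) := qN_eq hβ N s t
  rw [h2] at h1
  refine h1.congr fun n => ?_
  rw [lin_smul]
  congr 4
  · ring
  · ring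

end Pool.Agent.LR
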