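import Pool.Agent.LR.B2b.Cls
import Pool.Agent.LR.B2b.LLfacts

/-!
# LR-B2a-LL: locally Lipschitz functions on the plane

`P = ℝ × ℝ` (sup norm), `LL H` (file B2b/Cls.lean): Lipschitz on every square `{‖z‖ ≤ K}`.
`gsq H z = (fderiv ℝ H z (1,0))^2 + (fderiv ℝ H z (0,1))^2`.

PLAN.
* `LL.lipOn`: `LipschitzOnWith L.toNNReal H (Metric.ball 0 K)` for every `K : ℕ`
  (`L := max L 0`; `LipschitzOnWith.of_dist_le_mul`; `dist_eq_norm`, `Metric.mem_ball`,
  `dist_zero_right`).
* `LL.ae_diff`: Rademacher: `LipschitzOnWith.ae_differentiableWithinAt_of_mem` (Mathlib,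
  `Mathlib/Analysis/Calculus/Rademacher.lean`) on `ball 0 K` for each `K : ℕ`, then
  `DifferentiableWithinAt.differentiableAt` (the ball is an open neighbourhood), `ae_all_iff`, and
  every `z` is in some ball (`exists_nat_gt ‖z‖`).
* `LL.gsq_le`: for `‖z‖ < K` the norm of `fderiv ℝ H z` is `≤ L`
  (`norm_fderiv_le_of_lipschitzOn` with `Metric.ball_mem_nhds`/`IsOpen.mem_nhds`; if not
  differentiable `fderiv = 0`, already covered by that lemma), and `‖(1,0)‖ = ‖(0,1)‖ = 1`; so
  `gsq H z ≤ 2 * L^2` (use `ContinuousLinearMap.le_opNorm`, `Real.norm_eq_abs`, `sq_le_sq'`).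
* `measurable_gsq`: `measurable_fderiv_apply_const`.
* `LL.integrableOn`: a bounded measurable function on a measurable set of finite measure: `U` is
  inside `ball 0 K` for some natural `K` (`hb.subset_ball`...), `Measure.integrableOn_of_bounded`
  with `(hb.measure_lt_top).ne`, `gsq ≥ 0`.
* `LL.of_contDiff`: `ContDiff ℝ 1 H → LL H`: on the convex compact set `closedBall 0 K`,
  `‖fderiv ℝ H z‖ ≤ C` (continuity + `IsCompact.exists_bound_of_continuousOn`), then
  `Convex.norm_image_sub_le_of_norm_fderiv_le`.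
* `LL.continuous` : `LL H → Continuous H`.
Do not change the statements (you may add lemmas; put helper lemmas before).
-/

set_option autoImplicit false

noncomputable section

open scoped BigOperators Topology
open MeasureTheory Filter Set

namespace Pool.Agent.LR

theorem LL.lipOn {H : P → ℝ} (hH : LL H) (K : ℕ) :
    ∃ L : NNReal, LipschitzOnWith L H (Metric.ball 0 K) := by
  obtain ⟨A, hA⟩ := hH K
  refine ⟨A.toNNReal, LipschitzOnWith.of_dist_le_mul fun z hz w hw => ?_⟩
  rw [Real.dist_eq, dist_eq_norm]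
  refine (hA z w (mem_ball_zero_iff.1 hz).le (mem_ball_zero_iff.1 hw).le).trans ?_
  exact mul_le_mul_of_nonneg_right (Real.le_coe_toNNReal A) (norm_nonneg _)

theorem LL.continuous {H : P → ℝ} (hH : LL H) : Continuous H := by
  rw [continuous_iff_continuousAt]
  intro z
  obtain ⟨K, hK⟩ := exists_nat_gt ‖z‖
  obtain ⟨L, hL⟩ := hH.lipOn K
  exact hL.continuousOn.continuousAt (Metric.isOpen_ball.mem_nhds (mem_ball_zero_iff.2 hK))

theorem LL.ae_diff {H : P → ℝ} (hH : LL H) : ∀ᵐ z : P, DifferentiableAt ℝ H z :=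
  ll_ae hH

theorem gsq_nonneg (H : P → ℝ) (z : P) : 0 ≤ gsq H z := by unfold gsq; positivity

theorem LL.gsq_le {H : P → ℝ} (hH : LL H) (K : ℕ) : ∃ C : ℝ, ∀ z : P, ‖z‖ < K → gsq H z ≤ C := by
  obtain ⟨A, hA⟩ := hH K
  exact ⟨2 * A ^ 2, fun z hz => ll_bd hA z hz⟩

theorem measurable_gsq (H : P → ℝ) : Measurable (gsq H) := ll_meas H

theorem LL.integrableOn {H : P → ℝ} (hH : LL H) {U : Set P} (hU : MeasurableSet U)
    (hb : Bornology.IsBounded U) : IntegrableOn (gsq H) U := ll_int hH hb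

theorem LL.of_contDiff {H : P → ℝ} (hH : ContDiff ℝ 1 H) : LL H := ll_of_contDiff hH

end Pool.Agent.LR
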