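import Pool.Agent.LR.B2a.Kap
import Pool.Agent.LR.B2b.Cls

/-!
# LR, block B2a: the lower bound 2.4
-/

set_option autoImplicit false
set_option linter.unusedSectionVars false
set_option linter.unusedVariables false

noncomputable section

open scoped BigOperators Topology ENNReal
open MeasureTheory Filter Set

namespace Pool.Agent.LR

/-! ## The grid of `N`-boxes at scale `n` -/

/-- index of the box containing `n z` -/
def bN (N n : ℕ) (z : P) : V := (⌊(n : ℝ) * z.1 / N⌋, ⌊(n : ℝ) * z.2 / N⌋)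

/-- box with index `b` -/
def boxN (N : ℕ) (b : V) : Finset V := sqB ((N : ℤ) * b.1, (N : ℤ) * b.2) N

theorem measurable_bN (N n : ℕ) : Measurable (bN N n) := by
  unfold bN
  fun_prop

theorem boxN_disjoint {N : ℕ} {b b' : V} (h : b ≠ b') : Disjoint (boxN N b) (boxN N b') := by
  rw [Finset.disjoint_left]
  intro x hx hx'
  unfold boxN at hx hx'
  rw [mem_sqB] at hx hx'
  simp only at hx hx'
  apply h
  have key : ∀ a a' y : ℤ, (N : ℤ) * a ≤ y → y < N * a + N → (N : ℤ) * a' ≤ y → y < N * a' + N →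
      a = a' := by
    intro a a' y h1 h2 h3 h4
    have hN : (0 : ℤ) < N := by nlinarith
    have h5 : (N : ℤ) * a < N * (a' + 1) := by nlinarith
    have h6 : (N : ℤ) * a' < N * (a + 1) := by nlinarith
    have h7 := lt_of_mul_lt_mul_left h5 hN.le
    have h8 := lt_of_mul_lt_mul_left h6 hN.le
    omega
  exact Prod.ext (key _ _ _ hx.1.1 hx.1.2 hx'.1.1 hx'.1.2)
    (key _ _ _ hx.2.1 hx.2.2 hx'.2.1 hx'.2.2)

theorem corner_mem {N : ℕ} (hN : 0 < N) (b : V) : ((N : ℤ) * b.1, (N : ℤ) * b.2) ∈ boxN N b := by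
  unfold boxN
  rw [mem_sqB]
  simp only
  have : (0 : ℤ) < N := by exact_mod_cast hN
  omega

theorem dist_boxN {N n : ℕ} (hN : 0 < N) (hn : 0 < n) (z : P) {x : V}
    (hx : x ∈ boxN N (bN N n z)) : ‖sc n x - z‖ ≤ (N : ℝ) / n := by
  have hN' : (0 : ℝ) < N := by exact_mod_cast hN
  have hn' : (0 : ℝ) < n := by exact_mod_cast hn
  unfold boxN bN at hx
  rw [mem_sqB] at hx
  simp only at hx
  have key : ∀ (w : ℝ) (y : ℤ), (N : ℤ) * ⌊(n : ℝ) * w / N⌋ ≤ y →
      y < (N : ℤ) * ⌊(n : ℝ) * w / N⌋ + N → |(y : ℝ) / n - w| ≤ (N : ℝ) / n := by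
    intro w y h1 h2
    have h1' : (N : ℝ) * (⌊(n : ℝ) * w / N⌋ : ℝ) ≤ y := by exact_mod_cast h1
    have h2' : (y : ℝ) < N * (⌊(n : ℝ) * w / N⌋ : ℝ) + N := by exact_mod_cast h2
    have h3 := Int.floor_le ((n : ℝ) * w / N)
    have h4 := Int.lt_floor_add_one ((n : ℝ) * w / N)
    have h5 : (N : ℝ) * (⌊(n : ℝ) * w / N⌋ : ℝ) ≤ n * w := by
      have := mul_le_mul_of_nonneg_left h3 hN'.le
      have e : (N : ℝ) * ((n : ℝ) * w / N) = n * w := by field_simp
      linarith
    have h6 : (n : ℝ) * w < N * (⌊(n : ℝ) * w / N⌋ : ℝ) + N := by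
      have := mul_lt_mul_of_pos_left h4 hN'
      have e : (N : ℝ) * ((n : ℝ) * w / N) = n * w := by field_simp
      nlinarith
    have h7 : (y : ℝ) / n - w = (y - n * w) / n := by field_simp
    rw [h7, abs_div, abs_of_pos hn']
    apply div_le_div_of_nonneg_right _ hn'.le
    rw [abs_le]
    constructor <;> linarith
  rw [Prod.norm_def]
  exact max_le (key _ _ hx.1.1 hx.1.2) (key _ _ hx.2.1 hx.2.2)

theorem volume_bN {N n : ℕ} (hN : 0 < N) (hn : 0 < n) (b : V) :
    volume (bN N n ⁻¹' {b}) = ENNReal.ofReal (((N : ℝ) / n) ^ 2) := by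
  have hN' : (0 : ℝ) < N := by exact_mod_cast hN
  have hn' : (0 : ℝ) < n := by exact_mod_cast hn
  have key : ∀ (w : ℝ) (k : ℤ), ⌊(n : ℝ) * w / N⌋ = k ↔ w ∈ Set.Ico ((k : ℝ) * (N / n))
      (((k : ℝ) + 1) * (N / n)) := by
    intro w k
    rw [Int.floor_eq_iff, Set.mem_Ico, le_div_iff₀ hN', div_lt_iff₀ hN']
    have e1 : (k : ℝ) * ((N : ℝ) / n) ≤ w ↔ (k : ℝ) * N ≤ n * w := by
      rw [← mul_div_assoc, div_le_iff₀ hn', mul_comm w]
    have e2 : w < ((k : ℝ) + 1) * ((N : ℝ) / n) ↔ (n : ℝ) * w < (k + 1) * N := by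
      rw [← mul_div_assoc, lt_div_iff₀ hn', mul_comm w]
    rw [e1, e2]
  have hset : bN N n ⁻¹' {b} = Set.Ico ((b.1 : ℝ) * (N / n)) (((b.1 : ℝ) + 1) * (N / n)) ×ˢ
      Set.Ico ((b.2 : ℝ) * (N / n)) (((b.2 : ℝ) + 1) * (N / n)) := by
    ext z
    rw [Set.mem_preimage, Set.mem_singleton_iff, Set.mem_prod, ← key, ← key]
    unfold bN
    rw [Prod.ext_iff]
  rw [hset, Measure.volume_eq_prod, Measure.prod_prod, Real.volume_Ico, Real.volume_Ico,
    ← ENNReal.ofReal_mul]
  · congr 1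
    ring
  · have : (0 : ℝ) < N / n := by positivity
    nlinarith

/-- local energy density -/
def gN (α β : ℝ) (N : ℕ) (S : Finset V) (H : P → ℝ) (n : ℕ) (b : V) : ℝ :=
  if boxN N b ⊆ S then ((n : ℝ) / N) ^ 2 * Efr (JJ α β) (boxN N b) (smp H n) else 0

theorem gN_nonneg {α β : ℝ} (hβ : 0 < β) (N : ℕ) (S : Finset V) (H : P → ℝ) (n : ℕ) (b : V) :
    0 ≤ gN α β N S H n b := by
  unfold gN
  split_ifs
  · exact mul_nonneg (by positivity) (Efr_nonneg (isCoup_JJ hβ) _ _)
  · exact le_rfl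

/-- the integral of the local density is at most the functional -/
theorem lintegral_gN {α β : ℝ} (hβ : 0 < β) {N n : ℕ} (hN : 0 < N) (hn : 0 < n) (S : Finset V)
    (H : P → ℝ) : ∫⁻ z : P, ENNReal.ofReal (gN α β N S H n (bN N n z)) ≤
      ENNReal.ofReal (Efr (JJ α β) S (smp H n)) := by
  have hN' : (0 : ℝ) < N := by exact_mod_cast hN
  have hn' : (0 : ℝ) < n := by exact_mod_cast hn
  -- finite set of indices
  let 𝓑 : Finset V := (S.image fun x : V => (x.1 / (N : ℤ), x.2 / (N : ℤ))).filter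
    fun b => boxN N b ⊆ S
  have h𝓑 : ∀ b, boxN N b ⊆ S → b ∈ 𝓑 := by
    intro b hb
    refine Finset.mem_filter.2 ⟨Finset.mem_image.2 ⟨_, hb (corner_mem hN b), ?_⟩, hb⟩
    have hN0 : (N : ℤ) ≠ 0 := by exact_mod_cast hN.ne'
    simp only
    rw [Int.mul_ediv_cancel_left _ hN0, Int.mul_ediv_cancel_left _ hN0]
  have h1 : ∫⁻ z : P, ENNReal.ofReal (gN α β N S H n (bN N n z)) =
      ∑' b : V, ENNReal.ofReal (gN α β N S H n b) * volume (bN N n ⁻¹' {b}) := by
    have e1 : ∫⁻ z : P, ENNReal.ofReal (gN α β N S H n (bN N n z)) =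
        ∫⁻ b : V, ENNReal.ofReal (gN α β N S H n b) ∂(Measure.map (bN N n) volume) := by
      rw [lintegral_map (measurable_of_countable (fun b : V =>
        ENNReal.ofReal (gN α β N S H n b))) (measurable_bN N n)]
    rw [e1, lintegral_countable']
    refine tsum_congr fun b => ?_
    rw [Measure.map_apply (measurable_bN N n) (measurableSet_singleton b)]
  rw [h1, tsum_eq_sum (s := 𝓑)]
  · have h2 : ∀ b ∈ 𝓑, ENNReal.ofReal (gN α β N S H n b) * volume (bN N n ⁻¹' {b}) =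
        ENNReal.ofReal (Efr (JJ α β) (boxN N b) (smp H n)) := by
      intro b hb
      have hbS : boxN N b ⊆ S := (Finset.mem_filter.1 hb).2
      rw [volume_bN hN hn, ← ENNReal.ofReal_mul (gN_nonneg hβ _ _ _ _ _)]
      congr 1
      unfold gN
      rw [if_pos hbS]
      field_simp
    rw [Finset.sum_congr rfl h2, ← ENNReal.ofReal_sum_of_nonneg
      (fun b _ => Efr_nonneg (isCoup_JJ hβ) _ _)]
    apply ENNReal.ofReal_le_ofReal
    exact Efr_biUnion (isCoup_JJ hβ) 𝓑 (boxN N) S (fun i _ j _ hij => boxN_disjoint hij)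
      (fun i hi => (Finset.mem_filter.1 hi).2) _
  · intro b hb
    have : gN α β N S H n b = 0 := by
      unfold gN
      rw [if_neg fun h => hb (h𝓑 b h)]
    rw [this, ENNReal.ofReal_zero, zero_mul]

/-! ## Pointwise lower bound -/

theorem sq_low {a : ℕ → ℝ} {L : ℝ} (hL : 0 ≤ L)
    (h : ∀ ε > 0, ∀ᶠ n in atTop, L - ε ≤ a n) {ε : ℝ} (hε : 0 < ε) :
    ∀ᶠ n in atTop, L ^ 2 - ε ≤ a n ^ 2 := by
  have hL1 : 0 < 2 * (L + 1) := by linarith
  filter_upwards [h (ε / (2 * (L + 1))) (by positivity)] with n hn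
  set e := ε / (2 * (L + 1)) with he
  have he2 : e * (2 * (L + 1)) = ε := by rw [he]; field_simp
  have he0 : 0 < e := by rw [he]; positivity
  by_cases h0 : 0 ≤ L - e
  · have h1 : (L - e) ^ 2 ≤ a n ^ 2 := pow_le_pow_left₀ h0 hn 2
    nlinarith [sq_nonneg e]
  · push Not at h0
    nlinarith [sq_nonneg (a n)]

theorem pointwise_low {α β : ℝ} (hα : 4 < α) (hβ : 0 < β) {N : ℕ} (hN : 0 < N) {H : P → ℝ} {z : P}
    (hd : DifferentiableAt ℝ H z) {S : ℕ → Finset V}
    (hS : ∃ δ > 0, ∀ᶠ n : ℕ in atTop, ∀ x : V, ‖sc n x - z‖ < δ → x ∈ S n) {ε : ℝ}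
    (hε : 0 < ε) :
    ∀ᶠ n : ℕ in atTop, kapN α β N / 2 * gsq H z - ε ≤ gN α β N (S n) H n (bN N n z) := by
  have hN' : (0 : ℝ) < N := by exact_mod_cast hN
  obtain ⟨δ, hδ, hSδ⟩ := hS
  set A := fderiv ℝ H z with hA
  set s := A (1, 0) with hs
  set t := A (0, 1) with ht
  have hcc := cc_pos hα hβ
  have hAlin : ∀ w : P, A w = s * w.1 + t * w.2 := by
    intro w
    have : w = w.1 • ((1, 0) : P) + w.2 • ((0, 1) : P) := by
      ext <;> simp
    conv_lhs => rw [this]
    rw [map_add, map_smul, map_smul, smul_eq_mul, smul_eq_mul]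
    ring
  have hgsq : gsq H z = s ^ 2 + t ^ 2 := rfl
  -- the sequence `a n = n √(2E)`
  set E : ℕ → ℝ := fun n => Efr (JJ α β) (boxN N (bN N n z)) (smp H n) with hE
  set L : ℝ := Real.sqrt (qN α β N 1 0 * (s ^ 2 + t ^ 2)) with hLdef
  have hq0 : 0 ≤ qN α β N 1 0 := qS_nonneg (isCoup_JJ hβ) _ _
  have hL2 : L ^ 2 = qN α β N 1 0 * (s ^ 2 + t ^ 2) := Real.sq_sqrt (by positivity)
  have hlin : Tendsto (fun n : ℕ => Real.sqrt ((n : ℝ) ^ 2 *
      (2 * Efr (JJ α β) (sqB 0 N) (lin (s / n) (t / n))))) atTop (𝓝 L) :=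
    (Real.continuous_sqrt.tendsto _).comp (tendsto_lin hβ N s t)
  have hmain : ∀ e > 0, ∀ᶠ n : ℕ in atTop, L - e ≤ (n : ℝ) * Real.sqrt (2 * E n) := by
    intro e he
    -- choose η
    set c : ℝ := Real.sqrt (8 * cc α β) * (N : ℝ) ^ 2 with hc
    have hc0 : 0 ≤ c := by positivity
    set η : ℝ := e / (2 * (c + 1)) with hη
    have hη0 : 0 < η := by positivity
    have hcη : c * η ≤ e / 2 := by
      have : η * (2 * (c + 1)) = e := by rw [hη]; field_simp
      nlinarith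
    have hder : ∀ᶠ w in 𝓝 z, ‖H w - H z - A (w - z)‖ ≤ η * ‖w - z‖ :=
      hd.hasFDerivAt.isLittleO.def hη0
    obtain ⟨ρ, hρ, hρ'⟩ := Metric.eventually_nhds_iff.1 hder
    have hsmall : ∀ᶠ n : ℕ in atTop, (N : ℝ) / n < min ρ δ := by
      have : Tendsto (fun n : ℕ => (N : ℝ) / n) atTop (𝓝 0) := tendsto_const_div_atTop_nhds_zero_nat _
      exact this.eventually (gt_mem_nhds (lt_min hρ hδ))
    have hl : ∀ᶠ n : ℕ in atTop, L - e / 2 < Real.sqrt ((n : ℝ) ^ 2 *
        (2 * Efr (JJ α β) (sqB 0 N) (lin (s / n) (t / n)))) :=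
      hlin.eventually (lt_mem_nhds (by linarith))
    filter_upwards [hsmall, hl, eventually_gt_atTop 0] with n h1 h2 hn
    have hn' : (0 : ℝ) < n := by exact_mod_cast hn
    set B := boxN N (bN N n z) with hB
    set h := smp H n with hh
    set h0 : V → ℝ := fun x => s / n * x.1 + t / n * x.2 + (H z - s * z.1 - t * z.2) with hh0
    have hdiff : ∀ x ∈ B, |h x - h0 x| ≤ η * (N / n) := by
      intro x hx
      have h3 := dist_boxN hN hn z hx
      have h4 : dist (sc n x) z < ρ := by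
        rw [dist_eq_norm]
        exact lt_of_le_of_lt h3 (lt_of_lt_of_le h1 (min_le_left _ _))
      have h5 := hρ' h4
      have h6 : h x - h0 x = H (sc n x) - H z - A (sc n x - z) := by
        rw [hAlin]
        simp only [hh, hh0, smp, sc, Prod.fst_sub, Prod.snd_sub]
        ring
      rw [h6, ← Real.norm_eq_abs]
      exact h5.trans (mul_le_mul_of_nonneg_left h3 hη0.le)
    have hQ : QF α β B (h - h0) (h - h0) ≤ (c * η / n) ^ 2 := by
      have h7 : ∀ x ∈ B, ∀ y ∈ B, |(h - h0) x - (h - h0) y| ≤ 2 * (η * (N / n)) * len (x - y) := by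
        intro x hx y hy
        by_cases hxy : x = y
        · subst hxy
          simp [len_zero]
        · have h8 := hdiff x hx
          have h9 := hdiff y hy
          have h10 : 1 ≤ len (x - y) := one_le_len (sub_ne_zero.2 hxy)
          have h11 : 0 ≤ 2 * (η * ((N : ℝ) / n)) := by positivity
          have h12 : |(h - h0) x - (h - h0) y| ≤ 2 * (η * (N / n)) := by
            simp only [Pi.sub_apply]
            rw [abs_le] at h8 h9 ⊢
            constructor <;> linarith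
          nlinarith
      have h13 := QF_le hα hβ.le B (h - h0) h7
      have hcard : (B.card : ℝ) = (N : ℝ) ^ 2 := by
        rw [hB]
        unfold boxN
        rw [card_sqB]
        push_cast
        ring
      rw [hcard] at h13
      refine h13.trans (le_of_eq ?_)
      have h14 : Real.sqrt (8 * cc α β) ^ 2 = 8 * cc α β := Real.sq_sqrt (by positivity)
      have h20 : (c * η / n) ^ 2 = Real.sqrt (8 * cc α β) ^ 2 * ((N : ℝ) ^ 2 * η / n) ^ 2 := by
        rw [hc]
        ring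
      rw [h20, h14]
      ring
    have hsq := Efr_sqrt_lip (isCoup_JJ (α := α) hβ) B h0 h
    have hQ2 : Real.sqrt (Qfr (JJ α β) B (h0 - h) (h0 - h)) ≤ c * η / n := by
      have h15 : Qfr (JJ α β) B (h0 - h) (h0 - h) = QF α β B (h - h0) (h - h0) := by
        have : h0 - h = -(h - h0) := by ring
        rw [this, neg_sq']
        rfl
      rw [h15]
      exact Real.sqrt_le_iff.2 ⟨by positivity, hQ⟩
    have h16 : Real.sqrt (2 * Efr (JJ α β) B h0) - c * η / n ≤ Real.sqrt (2 * E n) := by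
      have := (abs_le.1 (hsq.trans hQ2)).2
      simp only [hE]
      linarith
    have h17 : Efr (JJ α β) B h0 = Efr (JJ α β) (sqB 0 N) (lin (s / n) (t / n)) := by
      rw [hB]
      unfold boxN
      exact Efr_sqB_lin _ N (c := H z - s * z.1 - t * z.2) fun x _ => rfl
    rw [h17] at h16
    have h18 : Real.sqrt ((n : ℝ) ^ 2 * (2 * Efr (JJ α β) (sqB 0 N) (lin (s / n) (t / n)))) =
        n * Real.sqrt (2 * Efr (JJ α β) (sqB 0 N) (lin (s / n) (t / n))) := by
      rw [Real.sqrt_mul (by positivity), Real.sqrt_sq hn'.le]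
    rw [h18] at h2
    have h19 : (n : ℝ) * (c * η / n) = c * η := by field_simp
    nlinarith [mul_le_mul_of_nonneg_left h16 hn'.le]
  have hLnn : 0 ≤ L := Real.sqrt_nonneg _
  have hsmall : ∀ᶠ n : ℕ in atTop, (N : ℝ) / n < δ := by
    have : Tendsto (fun n : ℕ => (N : ℝ) / n) atTop (𝓝 0) := tendsto_const_div_atTop_nhds_zero_nat _
    exact this.eventually (gt_mem_nhds hδ)
  filter_upwards [sq_low hLnn hmain (ε := 2 * (N : ℝ) ^ 2 * ε) (by positivity), hsmall, hSδ,
    eventually_gt_atTop 0] with n h1 h2 h3 hn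
  have hn' : (0 : ℝ) < n := by exact_mod_cast hn
  have hsub : boxN N (bN N n z) ⊆ S n := fun x hx =>
    h3 x (lt_of_le_of_lt (dist_boxN hN hn z hx) h2)
  unfold gN
  rw [if_pos hsub]
  have hEn : 0 ≤ 2 * E n := by
    have := Efr_nonneg (isCoup_JJ (α := α) hβ) (boxN N (bN N n z)) (smp H n)
    simp only [hE]
    linarith
  rw [hL2, mul_pow, Real.sq_sqrt hEn] at h1
  have h4 : kapN α β N * (N : ℝ) ^ 2 = qN α β N 1 0 := by
    unfold kapN
    field_simp
  rw [← h4] at h1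
  rw [hgsq]
  have h5 : ((n : ℝ) / N) ^ 2 * Efr (JJ α β) (boxN N (bN N n z)) (smp H n) =
      ((n : ℝ) ^ 2 * (2 * E n)) / (2 * (N : ℝ) ^ 2) := by
    simp only [hE]
    field_simp
  rw [h5, le_div_iff₀ (by positivity)]
  calc (kapN α β N / 2 * (s ^ 2 + t ^ 2) - ε) * (2 * (N : ℝ) ^ 2)
      = kapN α β N * (N : ℝ) ^ 2 * (s ^ 2 + t ^ 2) - 2 * (N : ℝ) ^ 2 * ε := by ring
    _ ≤ _ := h1

/-! ## Fatou -/

theorem ofReal_le_liminf {a : ℝ} {g : ℕ → ℝ} (h : ∀ ε > 0, ∀ᶠ n in atTop, a - ε ≤ g n) :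
    ENNReal.ofReal a ≤ liminf (fun n => ENNReal.ofReal (g n)) atTop := by
  refine ENNReal.le_of_forall_pos_le_add fun ε hε _ => ?_
  have h1 : ENNReal.ofReal (a - ε) ≤ liminf (fun n => ENNReal.ofReal (g n)) atTop := by
    refine le_liminf_of_le (by isBoundedDefault) ?_
    filter_upwards [h ε (by exact_mod_cast hε)] with n hn
    exact ENNReal.ofReal_le_ofReal hn
  calc ENNReal.ofReal a = ENNReal.ofReal ((a - ε) + ε) := by congr 1; ring
    _ ≤ ENNReal.ofReal (a - ε) + ENNReal.ofReal ε := ENNReal.ofReal_add_le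
    _ ≤ _ := by
        rw [ENNReal.ofReal_coe_nnreal]
        exact add_le_add_left h1 _

theorem meas_gsq (H : P → ℝ) : Measurable (gsq H) := by
  unfold gsq
  exact ((measurable_fderiv_apply_const ℝ H _).pow_const 2).add
    ((measurable_fderiv_apply_const ℝ H _).pow_const 2)

/-- 2.4 for a fixed box size -/
theorem Efr_lower_N {α β : ℝ} (hα : 4 < α) (hβ : 0 < β) {N : ℕ} (hN : 0 < N) {H : P → ℝ}
    {U : Set P} (hU : MeasurableSet U) (hd : ∀ᵐ z : P, z ∈ U → DifferentiableAt ℝ H z)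
    (hI : IntegrableOn (gsq H) U) {S : ℕ → Finset V}
    (hS : ∀ᵐ z : P, z ∈ U → ∃ δ > 0, ∀ᶠ n : ℕ in atTop, ∀ x : V, ‖sc n x - z‖ < δ → x ∈ S n)
    {ε : ℝ} (hε : 0 < ε) :
    ∀ᶠ n : ℕ in atTop,
      kapN α β N / 2 * (∫ z in U, gsq H z) - ε ≤ Efr (JJ α β) (S n) (smp H n) := by
  have hk := kapN_nonneg (α := α) hβ N
  have hgn : ∀ z, 0 ≤ gsq H z := fun z => by unfold gsq; positivity
  -- pointwise
  have h1 : ∀ᵐ z ∂(volume.restrict U), ENNReal.ofReal (kapN α β N / 2 * gsq H z) ≤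
      liminf (fun n : ℕ => ENNReal.ofReal (gN α β N (S n) H n (bN N n z))) atTop := by
    rw [ae_restrict_iff' hU]
    filter_upwards [hd, hS] with z h1 h2 hz
    exact ofReal_le_liminf fun ε hε => pointwise_low hα hβ hN (h1 hz) (h2 hz) hε
  have h2 : ∫⁻ z in U, ENNReal.ofReal (kapN α β N / 2 * gsq H z) ≤
      liminf (fun n : ℕ => ENNReal.ofReal (Efr (JJ α β) (S n) (smp H n))) atTop := by
    calc ∫⁻ z in U, ENNReal.ofReal (kapN α β N / 2 * gsq H z)
        ≤ ∫⁻ z in U, liminf (fun n : ℕ => ENNReal.ofReal (gN α β N (S n) H n (bN N n z))) atTop :=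
          lintegral_mono_ae h1
      _ ≤ liminf (fun n : ℕ => ∫⁻ z in U, ENNReal.ofReal (gN α β N (S n) H n (bN N n z))) atTop :=
          lintegral_liminf_le fun n =>
            (measurable_of_countable (fun b : V => ENNReal.ofReal (gN α β N (S n) H n b))).comp
              (measurable_bN N n)
      _ ≤ _ := by
          refine liminf_le_liminf ?_ (by isBoundedDefault) (by isBoundedDefault)
          filter_upwards [eventually_gt_atTop 0] with n hn
          exact (setLIntegral_le_lintegral _ _).trans (lintegral_gN hβ hN hn (S n) H)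
  have h3 : ∫⁻ z in U, ENNReal.ofReal (kapN α β N / 2 * gsq H z) =
      ENNReal.ofReal (kapN α β N / 2 * ∫ z in U, gsq H z) := by
    rw [← integral_const_mul, ofReal_integral_eq_lintegral_ofReal (hI.const_mul _)
      (Eventually.of_forall fun z => mul_nonneg (by linarith) (hgn z))]
  rw [h3] at h2
  set D := kapN α β N / 2 * ∫ z in U, gsq H z with hD
  by_cases h0 : D - ε < 0
  · exact Eventually.of_forall fun n => by
      have := Efr_nonneg (isCoup_JJ (α := α) hβ) (S n) (smp H n)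
      linarith
  · push Not at h0
    have h4 : ENNReal.ofReal (D - ε) < liminf (fun n : ℕ =>
        ENNReal.ofReal (Efr (JJ α β) (S n) (smp H n))) atTop :=
      lt_of_lt_of_le ((ENNReal.ofReal_lt_ofReal_iff (by linarith)).2 (by linarith)) h2
    filter_upwards [eventually_lt_of_lt_liminf h4 (by isBoundedDefault)] with n hn
    exact (ENNReal.ofReal_lt_ofReal_iff'.1 hn).1.le

/-- 2.4 LOWER BOUND, general form -/
theorem Efr_lower {α β : ℝ} (hα : 4 < α) (hβ : 0 < β) {H : P → ℝ} {U : Set P}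
    (hU : MeasurableSet U) (hd : ∀ᵐ z : P, z ∈ U → DifferentiableAt ℝ H z)
    (hI : IntegrableOn (gsq H) U) {S : ℕ → Finset V}
    (hS : ∀ᵐ z : P, z ∈ U → ∃ δ > 0, ∀ᶠ n : ℕ in atTop, ∀ x : V, ‖sc n x - z‖ < δ → x ∈ S n)
    {ε : ℝ} (hε : 0 < ε) :
    ∀ᶠ n : ℕ in atTop, kap α β / 2 * (∫ z in U, gsq H z) - ε ≤ Efr (JJ α β) (S n) (smp H n) := by
  set D := ∫ z in U, gsq H z with hD
  have hD0 : 0 ≤ D := integral_nonneg fun z => by unfold gsq; positivity
  -- choose N
  obtain ⟨N, hN⟩ : ∃ N : ℕ, kap α β - ε / (D + 1) < kapN α β N := by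
    apply exists_lt_of_lt_ciSup
    have : 0 < ε / (D + 1) := by positivity
    change _ < kap α β
    linarith
  have hb : kap α β / 2 * D - ε ≤ kapN α β N / 2 * D - ε / 2 := by
    have h1 : (kap α β - kapN α β N) * D ≤ ε := by
      have h2 : kap α β - kapN α β N ≤ ε / (D + 1) := by linarith
      have h3 : ε / (D + 1) * D ≤ ε := by
        rw [div_mul_eq_mul_div, div_le_iff₀ (by linarith)]
        nlinarith
      exact (mul_le_mul_of_nonneg_right h2 hD0).trans h3
    linarith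
  rcases Nat.eq_zero_or_pos N with rfl | hN0
  · refine Eventually.of_forall fun n => ?_
    have h1 := Efr_nonneg (isCoup_JJ (α := α) hβ) (S n) (smp H n)
    have h2 : kapN α β 0 = 0 := by simp [kapN]
    rw [h2] at hb
    linarith
  · filter_upwards [Efr_lower_N hα hβ hN0 hU hd hI hS (ε := ε / 2) (by linarith)] with n hn
    linarith

end Pool.Agent.LR
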