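import Pool.Agent.LR.B2a.Low
import Pool.Agent.LR.B2a.Dir
import Pool.Agent.LR.B2a.LLf

/-!
# LR, block B2a: output (`KLow`, lower bound for the Dirichlet model)
-/

set_option autoImplicit false
set_option linter.unusedSectionVars false
set_option linter.unusedVariables false

noncomputable section

open scoped BigOperators Topology ENNReal
open MeasureTheory Filter Set

namespace Pool.Agent.LR

/-- What block B2b needs. -/
theorem klow {α β : ℝ} (hα : 4 < α) (hβ : 0 < β) : KLow α β (kap α β) where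
  nonneg := kap_nonneg hα hβ
  low := by
    intro H hH U hU hb S hS ε hε
    refine Efr_lower hα hβ hU.measurableSet ?_ (hH.integrableOn hU.measurableSet hb) ?_ hε
    · filter_upwards [hH.ae_diff] with z hz _
      exact hz
    · exact Eventually.of_forall fun z hz => hS z hz
  lin := by
    intro N a t
    exact Efr_lin_le hα hβ a N t.1 t.2 0 _ fun x _ => by ring

/-- the lower bound for the Dirichlet model -/
theorem En_dir_lower {α β : ℝ} (hα : 4 < α) (hβ : 0 < β) (H : P → ℝ) (hH : ContDiff ℝ 1 H)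
    (hc : HasCompactSupport H) (Λ : ℕ → Finset V)
    (hΛ : ∀ᶠ n : ℕ in atTop, Supp (Λ n) (smp H n)) {ε : ℝ} (hε : 0 < ε) :
    ∀ᶠ n : ℕ in atTop, kap α β / 2 * Dir H - ε ≤ En (QD α β (Λ n)) (Λ n) (smp H n) := by
  obtain ⟨K, hK⟩ := hc.isCompact.isBounded.subset_ball (0 : P)
  have hloc : LocIn (Metric.ball (0 : P) K) (fun n => bx (-K) K (-K) K n) := by
    intro z hz
    obtain ⟨δ, hδ, hsub⟩ := Metric.isOpen_iff.1 Metric.isOpen_ball z hz
    refine ⟨δ, hδ, ?_⟩
    filter_upwards [eventually_gt_atTop 0] with n hn x hx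
    have hn' : (0 : ℝ) < n := by exact_mod_cast hn
    have h1 : sc n x ∈ Metric.ball (0 : P) K := hsub (by rwa [Metric.mem_ball, dist_eq_norm])
    rw [Metric.mem_ball, dist_zero_right, Prod.norm_def, max_lt_iff] at h1
    have h2 : |(x.1 : ℝ) / n| < K := h1.1
    have h3 : |(x.2 : ℝ) / n| < K := h1.2
    rw [abs_lt, lt_div_iff₀ hn', div_lt_iff₀ hn'] at h2 h3
    unfold bx
    rw [Finset.mem_product, Finset.mem_Icc, Finset.mem_Icc, Int.ceil_le, Int.le_floor,
      Int.ceil_le, Int.le_floor]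
    refine ⟨⟨?_, ?_⟩, ?_, ?_⟩ <;> linarith [h2.1, h2.2, h3.1, h3.2]
  have hLL := LL.of_contDiff hH
  have h1 := (klow hα hβ).low H hLL _ Metric.isOpen_ball Metric.isBounded_ball _ hloc ε hε
  have h2 : ∫ z in Metric.ball (0 : P) K, gsq H z = Dir H := by
    unfold Dir
    apply setIntegral_eq_integral_of_forall_compl_eq_zero
    intro z hz
    have hz' : z ∉ tsupport H := fun h => hz (hK h)
    have h3 : fderiv ℝ H z = 0 := by
      have : H =ᶠ[𝓝 z] fun _ => 0 := notMem_tsupport_iff_eventuallyEq.1 hz'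
      rw [this.fderiv_eq]
      simp
    unfold gsq
    rw [h3]
    simp
  rw [h2] at h1
  filter_upwards [h1, hΛ] with n hn1 hn2
  exact hn1.trans (En_dir_ge hα hβ (Λ n) _ _ hn2)

end Pool.Agent.LR
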