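import Pool.Agent.LR.Forms

/-!
# LR, block B2a: products, root change, shear (sums over integer fields)
-/

set_option autoImplicit false
set_option linter.unusedSectionVars false

noncomputable section

open scoped BigOperators Topology
open Filter Set

namespace Pool.Agent.LR

variable {W : Type*} [DecidableEq W]

/-- integer extension by zero -/
def embZ (O : Finset W) (ψ : O → ℤ) : W → ℤ := fun x => if h : x ∈ O then ψ ⟨x, h⟩ else 0

theorem emb_eq_embZ (O : Finset W) (ψ : O → ℤ) (x : W) : emb O ψ x = (embZ O ψ x : ℝ) := by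
  unfold emb embZ
  split_ifs <;> simp

theorem embZ_mem {O : Finset W} (ψ : O → ℤ) (x : O) : embZ O ψ x = ψ x := by
  simp [embZ]

theorem embZ_not {O : Finset W} (ψ : O → ℤ) {x : W} (h : x ∉ O) : embZ O ψ x = 0 := by
  simp [embZ, h]

/-- restriction of integer functions -/
def resZ (O : Finset W) (f : W → ℤ) : O → ℤ := fun x => f x

theorem embZ_resZ {O : Finset W} (f : W → ℤ) {x : W} (h : x ∈ O) : embZ O (resZ O f) x = f x := by
  simp [embZ, resZ, h]

theorem resZ_embZ {O : Finset W} (ψ : O → ℤ) : resZ O (embZ O ψ) = ψ := by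
  funext x
  simp [resZ, embZ]

/-! ## Union -/

/-- fields on a disjoint union -/
def unionE {O₁ O₂ : Finset W} (hd : Disjoint O₁ O₂) :
    ((O₁ ∪ O₂ : Finset W) → ℤ) ≃ (O₁ → ℤ) × (O₂ → ℤ) where
  toFun ψ := (resZ O₁ (embZ _ ψ), resZ O₂ (embZ _ ψ))
  invFun p := resZ _ (embZ O₁ p.1 + embZ O₂ p.2)
  left_inv ψ := by
    funext x
    rcases x with ⟨x, hx⟩
    have h1 : embZ O₁ (resZ O₁ (embZ (O₁ ∪ O₂) ψ)) x + embZ O₂ (resZ O₂ (embZ (O₁ ∪ O₂) ψ)) x =
        ψ ⟨x, hx⟩ := by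
      rw [← embZ_mem ψ ⟨x, hx⟩]
      rcases Finset.mem_union.1 hx with h | h
      · rw [embZ_resZ _ h, embZ_not _ (Finset.disjoint_left.1 hd h), add_zero]
      · rw [embZ_resZ _ h, embZ_not _ (Finset.disjoint_right.1 hd h), zero_add]
    simpa [resZ] using h1
  right_inv p := by
    refine Prod.ext ?_ ?_
    · funext x
      show embZ _ (resZ _ (embZ O₁ p.1 + embZ O₂ p.2)) x = p.1 x
      rw [embZ_resZ _ (Finset.mem_union_left _ x.2), Pi.add_apply, embZ_mem,
        embZ_not _ (Finset.disjoint_left.1 hd x.2), add_zero]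
    · funext x
      show embZ _ (resZ _ (embZ O₁ p.1 + embZ O₂ p.2)) x = p.2 x
      rw [embZ_resZ _ (Finset.mem_union_right _ x.2), Pi.add_apply, embZ_mem,
        embZ_not _ (Finset.disjoint_right.1 hd x.2), zero_add]

theorem embZ_unionE_symm {O₁ O₂ : Finset W} (hd : Disjoint O₁ O₂) (p : (O₁ → ℤ) × (O₂ → ℤ))
    (x : W) : embZ (O₁ ∪ O₂) ((unionE hd).symm p) x = embZ O₁ p.1 x + embZ O₂ p.2 x := by
  by_cases hx : x ∈ O₁ ∪ O₂
  · exact embZ_resZ (embZ O₁ p.1 + embZ O₂ p.2) hx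
  · rw [embZ_not _ hx, embZ_not _ (fun h => hx (Finset.mem_union_left _ h)),
      embZ_not _ (fun h => hx (Finset.mem_union_right _ h)), add_zero]

/-- Sum over the fields on a disjoint union of a product of local functions. -/
theorem tsum_union {O₁ O₂ : Finset W} (hd : Disjoint O₁ O₂) (a b : (W → ℝ) → ℝ)
    (ha : ∀ f g : W → ℝ, (∀ x, x ∉ O₂ → f x = g x) → a f = a g)
    (hb : ∀ f g : W → ℝ, (∀ x, x ∉ O₁ → f x = g x) → b f = b g)
    (s₁ : Summable fun ψ : O₁ → ℤ => a (emb O₁ ψ)) (s₂ : Summable fun ψ : O₂ → ℤ => b (emb O₂ ψ)) :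
    ∑' ψ : (O₁ ∪ O₂ : Finset W) → ℤ, a (emb _ ψ) * b (emb _ ψ) =
      (∑' ψ : O₁ → ℤ, a (emb O₁ ψ)) * ∑' ψ : O₂ → ℤ, b (emb O₂ ψ) := by
  rw [← (unionE hd).symm.tsum_eq, tsum_mul_tsum_of_summable_norm s₁.norm s₂.norm]
  refine tsum_congr fun p => ?_
  congr 1
  · refine ha _ _ fun x hx => ?_
    rw [emb_eq_embZ, emb_eq_embZ, embZ_unionE_symm, embZ_not p.2 hx, add_zero]
  · refine hb _ _ fun x hx => ?_
    rw [emb_eq_embZ, emb_eq_embZ, embZ_unionE_symm, embZ_not p.1 hx, zero_add]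

/-! ## Root change -/

/-- change of root of integer fields -/
def rootE {S : Finset W} {r r' : W} (hr : r ∈ S) (hr' : r' ∈ S) :
    (S.erase r → ℤ) ≃ (S.erase r' → ℤ) where
  toFun ψ := resZ _ (fun x => embZ _ ψ x - embZ _ ψ r')
  invFun χ := resZ _ (fun x => embZ _ χ x - embZ _ χ r)
  left_inv ψ := by
    funext x
    have key : ∀ y ∈ S, embZ (S.erase r') (resZ _ (fun x => embZ _ ψ x - embZ _ ψ r')) y =
        embZ _ ψ y - embZ _ ψ r' := by
      intro y hy
      by_cases h : y = r'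
      · subst h
        rw [embZ_not _ (Finset.notMem_erase y S), sub_self]
      · exact embZ_resZ _ (Finset.mem_erase.2 ⟨h, hy⟩)
    show embZ (S.erase r') (resZ _ (fun x => embZ _ ψ x - embZ _ ψ r')) x -
      embZ (S.erase r') (resZ _ (fun x => embZ _ ψ x - embZ _ ψ r')) r = ψ x
    rw [key x (Finset.mem_of_mem_erase x.2), key r hr, embZ_not ψ (Finset.notMem_erase r S),
      embZ_mem]
    ring
  right_inv ψ := by
    funext x
    have key : ∀ y ∈ S, embZ (S.erase r) (resZ _ (fun x => embZ _ ψ x - embZ _ ψ r)) y =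
        embZ _ ψ y - embZ _ ψ r := by
      intro y hy
      by_cases h : y = r
      · subst h
        rw [embZ_not _ (Finset.notMem_erase y S), sub_self]
      · exact embZ_resZ _ (Finset.mem_erase.2 ⟨h, hy⟩)
    show embZ (S.erase r) (resZ _ (fun x => embZ _ ψ x - embZ _ ψ r)) x -
      embZ (S.erase r) (resZ _ (fun x => embZ _ ψ x - embZ _ ψ r)) r' = ψ x
    rw [key x (Finset.mem_of_mem_erase x.2), key r' hr', embZ_not ψ (Finset.notMem_erase r' S),
      embZ_mem]
    ring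

theorem embZ_rootE {S : Finset W} {r r' : W} (hr : r ∈ S) (hr' : r' ∈ S) (ψ : S.erase r → ℤ)
    {x : W} (hx : x ∈ S) : embZ _ (rootE hr hr' ψ) x = embZ _ ψ x - embZ _ ψ r' := by
  by_cases h : x = r'
  · subst h
    rw [embZ_not _ (Finset.notMem_erase x S), sub_self]
  · exact embZ_resZ (fun x => embZ _ ψ x - embZ _ ψ r') (Finset.mem_erase.2 ⟨h, hx⟩)

/-- Sums of functions invariant under integer shifts on `S` do not depend on the root. -/
theorem tsum_root {S : Finset W} {r r' : W} (hr : r ∈ S) (hr' : r' ∈ S) (a : (W → ℝ) → ℝ)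
    (ha : ∀ (f g : W → ℝ) (c : ℤ), (∀ x ∈ S, f x = g x + c) → a f = a g) :
    ∑' ψ : S.erase r → ℤ, a (emb _ ψ) = ∑' ψ : S.erase r' → ℤ, a (emb _ ψ) := by
  rw [← (rootE hr hr').tsum_eq]
  refine tsum_congr fun ψ => ?_
  refine ha _ _ (embZ _ ψ r') fun x hx => ?_
  rw [emb_eq_embZ, emb_eq_embZ, embZ_rootE hr hr' ψ hx]
  push_cast
  ring

/-! ## Shear -/

/-- a field on `S` = a rooted field + a constant -/
def shearE {S : Finset W} {r : W} (hr : r ∈ S) :
    (S → ℤ) ≃ (S.erase r → ℤ) × (({r} : Finset W) → ℤ) where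
  toFun ψ := (resZ _ (fun x => embZ _ ψ x - embZ _ ψ r), resZ _ (embZ _ ψ))
  invFun p := resZ _ (fun x => embZ _ p.1 x + embZ _ p.2 r)
  left_inv ψ := by
    funext x
    show embZ (S.erase r) (resZ _ (fun x => embZ _ ψ x - embZ _ ψ r)) x +
      embZ {r} (resZ _ (embZ _ ψ)) r = ψ x
    rw [embZ_resZ _ (Finset.mem_singleton_self r)]
    by_cases h : (x : W) = r
    · rw [h, embZ_not _ (Finset.notMem_erase r S), zero_add, ← h, embZ_mem]
    · rw [embZ_resZ _ (Finset.mem_erase.2 ⟨h, x.2⟩), embZ_mem]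
      ring
  right_inv p := by
    have key : ∀ y ∈ S, embZ S (resZ _ (fun x => embZ _ p.1 x + embZ _ p.2 r)) y =
        embZ _ p.1 y + embZ _ p.2 r := fun y hy => embZ_resZ _ hy
    refine Prod.ext ?_ ?_
    · funext x
      show embZ S (resZ _ (fun x => embZ _ p.1 x + embZ _ p.2 r)) x -
        embZ S (resZ _ (fun x => embZ _ p.1 x + embZ _ p.2 r)) r = p.1 x
      rw [key x (Finset.mem_of_mem_erase x.2), key r hr, embZ_not p.1 (Finset.notMem_erase r S),
        embZ_mem]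
      ring
    · funext x
      have hx : (x : W) = r := Finset.mem_singleton.1 x.2
      have hxS : (x : W) ∈ S := by rw [hx]; exact hr
      have h1 : embZ {r} p.2 r = p.2 x := by rw [← embZ_mem p.2 x, hx]
      have h2 : embZ (S.erase r) p.1 x = 0 := by
        rw [hx]; exact embZ_not p.1 (Finset.notMem_erase r S)
      show embZ S (resZ _ (fun x => embZ _ p.1 x + embZ _ p.2 r)) x = p.2 x
      rw [key x hxS, h2, zero_add, h1]

theorem embZ_shearE_symm {S : Finset W} {r : W} (hr : r ∈ S)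
    (p : (S.erase r → ℤ) × (({r} : Finset W) → ℤ)) {x : W} (hx : x ∈ S) :
    embZ _ ((shearE hr).symm p) x = embZ _ p.1 x + embZ _ p.2 r :=
  embZ_resZ (fun x => embZ _ p.1 x + embZ _ p.2 r) hx

/-- Free model with one pinned site: product of the rooted model and a one-dimensional sum. -/
theorem tsum_shear {S : Finset W} {r : W} (hr : r ∈ S) (a b : (W → ℝ) → ℝ)
    (ha : ∀ (f g : W → ℝ) (c : ℤ), (∀ x ∈ S, f x = g x + c) → a f = a g)
    (hb : ∀ f g : W → ℝ, f r = g r → b f = b g)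
    (s₁ : Summable fun ψ : S.erase r → ℤ => a (emb _ ψ))
    (s₂ : Summable fun ψ : ({r} : Finset W) → ℤ => b (emb _ ψ)) :
    ∑' ψ : S → ℤ, a (emb _ ψ) * b (emb _ ψ) =
      (∑' ψ : S.erase r → ℤ, a (emb _ ψ)) * ∑' ψ : ({r} : Finset W) → ℤ, b (emb _ ψ) := by
  rw [← (shearE hr).symm.tsum_eq, tsum_mul_tsum_of_summable_norm s₁.norm s₂.norm]
  refine tsum_congr fun p => ?_
  congr 1
  · refine ha _ _ (embZ _ p.2 r) fun x hx => ?_
    rw [emb_eq_embZ, emb_eq_embZ, embZ_shearE_symm hr p hx]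
    push_cast
    ring
  · refine hb _ _ ?_
    rw [emb_eq_embZ, emb_eq_embZ, embZ_shearE_symm hr p hr,
      embZ_not p.1 (Finset.notMem_erase r S), zero_add]

/-! ## Reindexing -/

/-- transport of integer fields by a bijection of the sites -/
def mapE (θ : W ≃ W) (O : Finset W) : (O → ℤ) ≃ (O.map θ.toEmbedding → ℤ) where
  toFun ψ := resZ _ (fun x => embZ _ ψ (θ.symm x))
  invFun χ := resZ _ (fun x => embZ _ χ (θ x))
  left_inv ψ := by
    funext x
    have hx : θ x ∈ O.map θ.toEmbedding := Finset.mem_map_of_mem θ.toEmbedding x.2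
    show embZ _ (resZ _ (fun x => embZ _ ψ (θ.symm x))) (θ x) = ψ x
    rw [embZ_resZ _ hx, Equiv.symm_apply_apply, embZ_mem]
  right_inv χ := by
    funext x
    show embZ _ (resZ _ (fun x => embZ _ χ (θ x))) (θ.symm x) = χ x
    have hx : θ.symm x ∈ O := by
      obtain ⟨y, hy, h⟩ := Finset.mem_map.1 x.2
      have : θ.symm x = y := by rw [← h]; simp
      rw [this]; exact hy
    rw [embZ_resZ _ hx, Equiv.apply_symm_apply, embZ_mem]

theorem embZ_mapE (θ : W ≃ W) (O : Finset W) (ψ : O → ℤ) (x : W) :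
    embZ _ (mapE θ O ψ) (θ x) = embZ _ ψ x := by
  by_cases hx : x ∈ O
  · have hx' : θ x ∈ O.map θ.toEmbedding := Finset.mem_map_of_mem θ.toEmbedding hx
    show embZ _ (resZ _ (fun x => embZ _ ψ (θ.symm x))) (θ x) = _
    rw [embZ_resZ _ hx', Equiv.symm_apply_apply]
  · rw [embZ_not _ hx, embZ_not]
    intro h
    obtain ⟨y, hy, h⟩ := Finset.mem_map.1 h
    exact hx (θ.injective h ▸ hy)

theorem tsum_map (θ : W ≃ W) (O : Finset W) (a : (W → ℝ) → ℝ) :
    ∑' ψ : O.map θ.toEmbedding → ℤ, a (emb _ ψ) = ∑' ψ : O → ℤ, a (emb O ψ ∘ θ.symm) := by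
  rw [← (mapE θ O).tsum_eq]
  refine tsum_congr fun ψ => ?_
  congr 1
  funext x
  rw [Function.comp_apply, emb_eq_embZ, emb_eq_embZ, ← embZ_mapE θ O ψ, Equiv.apply_symm_apply]

end Pool.Agent.LR
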